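import Pool.Agent.Helper14.PF.SpCore
import Pool.Agent.Helper3.PF.LInv

/-!
Project PFO: multiplicity one in type D; the symplectic case.
-/

open Module LieModule LieAlgebra LieAlgebra.IsKilling AddMonoidAlgebra MTP.MF PF.W PF.L

attribute [local instance 100] LieRing.ofAssociativeRing

namespace PF.C

section gen

variable {K : Type*} [Field K] [CharZero K] [IsAlgClosed K]
  {L : Type*} [LieRing L] [LieAlgebra K L] [FiniteDimensional K L] [IsKilling K L]
  {H : LieSubalgebra K L} [H.IsCartanSubalgebra]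
  {V : Type*} [AddCommGroup V] [Module K V] [FiniteDimensional K V]
  [LieRingModule L V] [LieModule K L V] {I : Type*} [Fintype I]

open Classical in
/-- the multiplicity of a weight -/
noncomputable def cnt (B : WB (V := V) H I) (μ : Dual K H) : ℕ := (Finset.univ.filter fun i => B.w i = μ).card

theorem chi_coeff (B : WB (V := V) H I) (μ : Dual K H) : (chi B).coeff μ = (cnt B μ : K) := by
  classical
  unfold chi cnt
  rw [AddMonoidAlgebra.coeff_sum, Finsupp.finset_sum_apply, Finset.card_filter]
  push_cast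
  refine Finset.sum_congr rfl fun i _ => ?_
  rw [AddMonoidAlgebra.coeff_single, Finsupp.single_apply]

theorem cnt_refl (B : WB (V := V) H I) (α : H.root) (μ : Dual K H) :
    cnt B ((rootSystem H).reflection α μ) = cnt B μ := by
  have h1 := act_chi B α
  have h2 : (act ((rootSystem H).reflection α) (chi B)).coeff μ = (chi B).coeff μ := by rw [h1]
  rw [act_coeff, chi_coeff, chi_coeff] at h2
  have h3 : ((rootSystem H).reflection α).symm μ = (rootSystem H).reflection α μ := rfl
  rw [h3] at h2
  exact_mod_cast h2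

/-- the weights of multiplicity one -/
theorem cnt_eq_one_iff (B : WB (V := V) H I) (i : I) : cnt B (B.w i) = 1 ↔ ∀ j, B.w j = B.w i → j = i := by
  classical
  unfold cnt
  constructor
  · intro h j hj
    obtain ⟨a, ha⟩ := Finset.card_eq_one.1 h
    have h1 : j ∈ Finset.univ.filter fun k => B.w k = B.w i := by simp [hj]
    have h2 : i ∈ Finset.univ.filter fun k => B.w k = B.w i := by simp
    rw [ha, Finset.mem_singleton] at h1 h2
    rw [h1, h2]
  · intro h
    rw [Finset.card_eq_one]
    refine ⟨i, ?_⟩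
    ext j
    simp only [Finset.mem_filter, Finset.mem_univ, true_and, Finset.mem_singleton]
    exact ⟨h j, fun h => by rw [h]⟩

theorem typeD_inj (B : WB (V := V) H I) [Nonempty I]
    (hirr : ∀ W : Submodule K V, (∀ x : L, ∀ u ∈ W, ⁅x, u⁆ ∈ W) → W = ⊥ ∨ W = ⊤)
    (hD : TypeD (PhiS H) (XS B)) : Function.Injective B.w := by
  obtain ⟨f1, -, -, f4⟩ := typeD_facts B hD
  obtain ⟨b⟩ := RootPairing.nonempty_base (rootSystem H)
  obtain ⟨t, -, ht, -⟩ := PF.L.exists_top B hirr b
  have step : ∀ i k, cnt B (B.w i) = 1 → B.w i ≠ B.w k → B.w i ≠ -B.w k → cnt B (B.w k) = 1 := by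
    intro i k h h1 h2
    obtain ⟨β, hβ, hβ'⟩ := f1 i k h1 h2
    rw [← h, ← cnt_refl B β (B.w i)]
    congr 1
    have h3 : (rootSystem H).reflection β (B.w i) = B.w i - (B.w i (coroot β.1)) • (rootSystem H).root β := by
      rw [RootPairing.reflection_apply]
      rfl
    have h4 : (rootSystem H).root β = B.w i - B.w k := hβ
    rw [h3, hβ', one_smul, h4, sub_sub_cancel]
  have h1 : ∀ i, cnt B (B.w i) = 1 := by
    intro i
    have ht1 : cnt B (B.w t) = 1 := (cnt_eq_one_iff B t).2 ht
    by_cases h2 : B.w t = B.w i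
    · rw [← h2]
      exact ht1
    by_cases h3 : B.w t = -B.w i
    · obtain ⟨j, h4, h5⟩ := f4 t
      have h6 := step t j ht1 h4 h5
      refine step j i h6 ?_ ?_
      · intro h7
        apply h5
        rw [h7]
        exact h3
      · intro h7
        apply h4
        rw [h7]
        exact h3
    · exact step t i ht1 h2 h3
  intro i j hij
  exact (cnt_eq_one_iff B j).1 (h1 j) i hij

end gen

variable {K : Type*} [Field K] [CharZero K] [IsAlgClosed K] {V : Type*} [AddCommGroup V] [Module K V]
  [FiniteDimensional K V] {ω : LinearMap.BilinForm K V} {L : LieSubalgebra K (Module.End K V)} [IsKilling K L]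
  {H : LieSubalgebra K L} [H.IsCartanSubalgebra] {I : Type*} [Fintype I]

/-- **Type D and an alternating form.** -/
theorem typeD_sp (B : WB (V := V) H I) [Nonempty I]
    (hirr : ∀ W : Submodule K V, (∀ x : L, ∀ u ∈ W, ⁅x, u⁆ ∈ W) → W = ⊥ ∨ W = ⊤)
    (hD : TypeD (PhiS H) (XS B)) (hnd : ω.Nondegenerate) (halt : ω.IsAlt)
    (hsk : ∀ (x : L) (u v : V), ω ⁅x, u⁆ v = - ω u ⁅x, v⁆) {y : Module.End K V}
    (hy : ∀ u v, ω (y u) v = -ω u (y v)) : y ∈ L := by
  have hinj := typeD_inj B hirr hD
  obtain ⟨-, f2, f3, f4⟩ := typeD_facts B hD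
  have h1 : ∀ i j, ω (B.v i) (B.v j) ≠ 0 → B.w j = -B.w i := by
    intro i j hij
    ext h
    have h2 := hsk (h : L) (B.v i) (B.v j)
    rw [B.lie_v, B.lie_v, map_smul, map_smul, LinearMap.smul_apply, smul_eq_mul, smul_eq_mul] at h2
    have h3 : (B.w i h + B.w j h) * ω (B.v i) (B.v j) = 0 := by linear_combination h2
    rcases mul_eq_zero.1 h3 with h4 | h4
    · rw [LinearMap.neg_apply]
      exact (neg_eq_of_add_eq_zero_right h4).symm
    · exact absurd h4 hij
  refine PF.Sp.sp_of_pairs B.v B.w hnd halt L.toSubmodule ?_ ?_ hinj (fun i => neg_w B hnd hsk i) h1 ?_ f3 f4 hy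
  · intro a ha b hb
    exact L.lie_mem ha hb
  · intro x hx u v
    exact hsk ⟨x, hx⟩ u v
  · intro i j hij hij'
    obtain ⟨β, hβ⟩ := f2 i j hij hij'
    obtain ⟨e, he, he0⟩ := β.1.exists_ne_zero
    refine ⟨(e : Module.End K V), e.2, fun h => he0 (Subtype.ext h), ?_⟩
    intro k l hkl
    ext h
    have h2 := B.coord_root (α := β) he hkl h
    have h3 : rt β h = B.w i h + B.w j h := by rw [hβ]; rfl
    have h4 : β.1 h = rt β h := rfl
    rw [h2, h4, h3, LinearMap.add_apply, LinearMap.add_apply]
    ring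

end PF.C
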