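import Pool.Agent.Helper3.PF.WDefs

/-!
Project PF / W, block W1: the Weyl group acting on both spaces.
-/

open Module AddMonoidAlgebra

namespace PF.W

variable {ι K M N : Type*} [Field K] [AddCommGroup M] [Module K M] [AddCommGroup N] [Module K N]
  {P : RootPairing ι K M N}

theorem refl_mem (i : ι) : (P.reflection i, P.coreflection i) ∈ G P :=
  Subgroup.subset_closure ⟨i, rfl⟩

theorem refl_inv (i : ι) : ((P.reflection i, P.coreflection i) : (M ≃ₗ[K] M) × (N ≃ₗ[K] N))⁻¹ =
    (P.reflection i, P.coreflection i) := by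
  rw [Prod.inv_mk, P.reflection_inv, P.coreflection_inv]

/-- Induction over the Weyl group. -/
theorem G_induction {p : (M ≃ₗ[K] M) × (N ≃ₗ[K] N) → Prop}
    (h1 : p 1) (h2 : ∀ i, p (P.reflection i, P.coreflection i))
    (h3 : ∀ g g', p g → p g' → p (g * g')) {g : (M ≃ₗ[K] M) × (N ≃ₗ[K] N)} (hg : g ∈ G P) : p g := by
  refine Subgroup.closure_induction'' (p := fun x _ => p x) ?_ ?_ h1 (fun x y _ _ hx hy => h3 x y hx hy) hg
  · rintro x ⟨i, rfl⟩
    exact h2 i
  · rintro x ⟨i, rfl⟩
    rw [refl_inv]
    exact h2 i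

theorem pairing_inv {g : (M ≃ₗ[K] M) × (N ≃ₗ[K] N)} (hg : g ∈ G P) (x : M) (y : N) :
    P.toLinearMap (g.1 x) (g.2 y) = P.toLinearMap x y := by
  refine G_induction (P := P) (p := fun g => ∀ (x : M) (y : N), P.toLinearMap (g.1 x) (g.2 y) = P.toLinearMap x y)
    (fun x y => rfl) (fun i x y => ?_) (fun g g' h h' x y => ?_) hg x y
  · have e1 : P.toLinearMap (P.root i) (P.coroot i) = 2 := P.root_coroot_two i
    change P.toLinearMap (P.reflection i x) (P.coreflection i y) = _
    rw [P.reflection_apply, P.coreflection_apply, map_sub, map_sub, LinearMap.sub_apply, LinearMap.sub_apply,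
      map_smul, map_smul, map_smul, LinearMap.smul_apply, LinearMap.smul_apply, e1]
    have e2 : P.coroot' i x = P.toLinearMap x (P.coroot i) := rfl
    have e3 : P.root' i y = P.toLinearMap (P.root i) y := rfl
    rw [e2, e3]
    simp only [smul_eq_mul]
    ring
  · have e : (g * g').1 x = g.1 (g'.1 x) := rfl
    have e' : (g * g').2 y = g.2 (g'.2 y) := rfl
    rw [e, e', h, h']

theorem map_root {g : (M ≃ₗ[K] M) × (N ≃ₗ[K] N)} (hg : g ∈ G P) (i : ι) :
    ∃ j, g.1 (P.root i) = P.root j ∧ g.2 (P.coroot i) = P.coroot j := by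
  refine G_induction (P := P)
    (p := fun g => ∀ i, ∃ j, g.1 (P.root i) = P.root j ∧ g.2 (P.coroot i) = P.coroot j)
    (fun i => ⟨i, rfl, rfl⟩) (fun k i => ⟨P.reflectionPerm k i, ?_, ?_⟩) (fun g g' h h' i => ?_) hg i
  · rw [P.root_reflectionPerm]
  · rw [P.coroot_reflectionPerm]
  · obtain ⟨j, h1, h2⟩ := h' i
    obtain ⟨k, h3, h4⟩ := h j
    exact ⟨k, (congrArg g.1 h1).trans h3, (congrArg g.2 h2).trans h4⟩

theorem ext_G [P.IsRootSystem] {g g' : (M ≃ₗ[K] M) × (N ≃ₗ[K] N)}
    (h : ∀ i, g.1 (P.root i) = g'.1 (P.root i)) (h' : ∀ i, g.2 (P.coroot i) = g'.2 (P.coroot i)) : g = g' := by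
  have e1 : (g.1 : M →ₗ[K] M) = g'.1 := by
    refine LinearMap.ext_on_range (v := P.root) ?_ (fun i => h i)
    exact RootPairing.IsRootSystem.span_root_eq_top
  have e2 : (g.2 : N →ₗ[K] N) = g'.2 := by
    refine LinearMap.ext_on_range (v := P.coroot) ?_ (fun i => h' i)
    exact RootPairing.IsRootSystem.span_coroot_eq_top
  exact Prod.ext (LinearEquiv.toLinearMap_injective e1) (LinearEquiv.toLinearMap_injective e2)

theorem finite_G [Finite ι] [P.IsRootSystem] : Finite (G P) := by
  classical
  choose φ h1 h2 using fun (g : G P) (i : ι) => map_root g.2 i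
  refine Finite.of_injective φ (fun g g' h => ?_)
  apply Subtype.ext
  refine ext_G (P := P) (fun i => ?_) (fun i => ?_)
  · rw [h1, h1, h]
  · rw [h2, h2, h]

theorem finite_space [Finite ι] [P.IsRootSystem] : Module.Finite K M := by
  refine Module.Finite.of_fg_top ?_
  rw [← RootPairing.IsRootSystem.span_root_eq_top (P := P)]
  exact Submodule.fg_span (Set.finite_range _)

theorem sg_mul (g g' : (M ≃ₗ[K] M) × (N ≃ₗ[K] N)) : sg (g * g') = (sg g * sg g' : K) := by
  unfold sg
  rw [Prod.fst_mul]
  exact LinearMap.det_comp _ _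

theorem sg_one : sg (1 : (M ≃ₗ[K] M) × (N ≃ₗ[K] N)) = (1 : K) := by
  unfold sg
  exact LinearMap.det_id

theorem sg_refl [Finite ι] [P.IsRootSystem] (i : ι) : sg (P.reflection i, P.coreflection i) = (-1 : K) := by
  haveI : Module.Finite K M := finite_space (P := P)
  have e : (P.reflection i : M →ₗ[K] M) = LinearMap.transvection (-(P.coroot' i)) (P.root i) := by
    ext x
    rw [LinearMap.transvection.apply]
    change P.reflection i x = _
    rw [P.reflection_apply, LinearMap.neg_apply, neg_smul, sub_eq_add_neg]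
  unfold sg
  change LinearMap.det (P.reflection i : M →ₗ[K] M) = _
  rw [e, LinearMap.transvection.det, LinearMap.neg_apply]
  have e2 : P.coroot' i (P.root i) = 2 := P.root_coroot_two i
  rw [e2]
  norm_num

theorem sg_sq [Finite ι] [P.IsRootSystem] {g : (M ≃ₗ[K] M) × (N ≃ₗ[K] N)} (hg : g ∈ G P) :
    sg g = (1 : K) ∨ sg g = (-1 : K) := by
  refine G_induction (P := P) (p := fun g => sg g = (1 : K) ∨ sg g = (-1 : K)) (Or.inl sg_one)
    (fun i => Or.inr (sg_refl i)) (fun g g' h h' => ?_) hg
  rw [sg_mul]
  rcases h with h | h <;> rcases h' with h' | h' <;> rw [h, h'] <;> simp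

theorem swap_mem {g : (M ≃ₗ[K] M) × (N ≃ₗ[K] N)} (hg : g ∈ G P) : g.swap ∈ G P.flip := by
  refine G_induction (P := P) (p := fun g => g.swap ∈ G P.flip) ?_ (fun i => ?_) (fun g g' h h' => ?_) hg
  · exact one_mem _
  · exact refl_mem (P := P.flip) i
  · have e : (g * g').swap = g.swap * g'.swap := rfl
    rw [e]
    exact mul_mem h h'

theorem sg_swap [Finite ι] [P.IsRootSystem] {g : (M ≃ₗ[K] M) × (N ≃ₗ[K] N)} (hg : g ∈ G P) :
    sg g.swap = (sg g : K) := by
  refine G_induction (P := P) (p := fun g => sg g.swap = (sg g : K)) ?_ (fun i => ?_) (fun g g' h h' => ?_) hg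
  · rw [sg_one]
    exact sg_one
  · rw [sg_refl]
    exact sg_refl (P := P.flip) i
  · have e : (g * g').swap = g.swap * g'.swap := rfl
    rw [e, sg_mul, sg_mul, h, h']

section base

variable [CharZero K] [Finite ι]

/-- The Weyl group is generated by the simple reflections. -/
theorem closure_simple [P.IsRootSystem] [P.IsCrystallographic] [P.IsReduced] (b : P.Base) :
    Subgroup.closure ((fun i => (P.reflection i, P.coreflection i)) '' (b.support : Set ι)) = G P := by
  refine le_antisymm ((Subgroup.closure_mono (Set.image_subset_range _ _))) ?_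
  unfold G
  rw [Subgroup.closure_le]
  rintro x ⟨i, rfl⟩
  refine b.induction_reflect i (p := fun i => (P.reflection i, P.coreflection i) ∈
    Subgroup.closure ((fun i => (P.reflection i, P.coreflection i)) '' (b.support : Set ι))) ?_ ?_ ?_
  · intro i hi
    have e1 : P.reflection (P.reflectionPerm i i) = P.reflection i := by
      rw [P.reflection_reflectionPerm]
      ext x
      simp
    have e2 : P.coreflection (P.reflectionPerm i i) = P.coreflection i := by
      have := P.flip.reflection_reflectionPerm (i := i) (j := i)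
      change P.coreflection (P.reflectionPerm i i) = P.coreflection i * P.coreflection i * P.coreflection i at this
      rw [this]
      ext x
      simp
    rw [e1, e2]
    exact hi
  · intro i hi
    exact Subgroup.subset_closure ⟨i, hi, rfl⟩
  · intro i j hi hj
    have e1 := P.reflection_reflectionPerm (i := i) (j := j)
    have e2 := P.flip.reflection_reflectionPerm (i := i) (j := j)
    change P.coreflection (P.reflectionPerm j i) = P.coreflection j * P.coreflection i * P.coreflection j at e2
    have e3 : ((P.reflection (P.reflectionPerm j i), P.coreflection (P.reflectionPerm j i)) :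
        (M ≃ₗ[K] M) × (N ≃ₗ[K] N)) = (P.reflection j, P.coreflection j) * (P.reflection i, P.coreflection i) *
          (P.reflection j, P.coreflection j) := by
      rw [e1, e2]
      rfl
    rw [e3]
    have hj' : ((P.reflection j, P.coreflection j) : (M ≃ₗ[K] M) × (N ≃ₗ[K] N)) ∈
        Subgroup.closure ((fun i => (P.reflection i, P.coreflection i)) '' (b.support : Set ι)) :=
      Subgroup.subset_closure ⟨j, hj, rfl⟩
    exact mul_mem (mul_mem hj' hi) hj'

theorem isPos_flip_aux [P.IsRootSystem] [P.IsCrystallographic] [P.IsReduced] (b : P.Base) (i : ι)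
    (h : b.IsPos i) : b.flip.IsPos i := by
  refine (RootPairing.Base.IsPos.induction_on_reflect (b := b) (i := i) h
    (p := fun i => b.IsPos i → b.flip.IsPos i) ?_ ?_) h
  · intro i hi _
    exact RootPairing.Base.isPos_of_mem_support (b := b.flip) hi
  · intro i j hi hj hp
    by_cases hij : i = j
    · subst hij
      have := (RootPairing.Base.IsPos.neg_iff_not b i).1 hp
      exact absurd (RootPairing.Base.isPos_of_mem_support (b := b) hj) this
    by_cases hs : P.reflectionPerm j i = j
    · rw [hs]
      exact RootPairing.Base.isPos_of_mem_support (b := b.flip) hj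
    have hpi : b.IsPos i := by
      have := hp.reflectionPerm hj hs
      rwa [P.reflectionPerm_self] at this
    exact (hi hpi).reflectionPerm (b := b.flip) hj hij

/-- A root is positive if and only if its coroot is. -/
theorem isPos_flip [P.IsRootSystem] [P.IsCrystallographic] [P.IsReduced] (b : P.Base) (i : ι) :
    b.flip.IsPos i ↔ b.IsPos i := by
  refine ⟨fun h => ?_, isPos_flip_aux b i⟩
  exact isPos_flip_aux (P := P.flip) b.flip i h

end base

end PF.W
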