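import Pool.Agent.Helper14.PF.SpCore2
import Pool.Agent.Helper3.PF.LPrime
import Pool.Agent.Helper3.PF.Comb
import Pool.Agent.Helper95.PF.TA
import Pool.Agent.Helper54.MT.Wrap
import Pool.Agent.Helper54.MT.CartanIn
import Pool.Agent.Helper54.MT.IntDiag

/-!
Project PFO: the core theorem, reduction to the types; the alternating case.
-/

open Module LieModule LieAlgebra LieAlgebra.IsKilling MTP.MF PF.L
open Pool.Agent.Helper54.MT (semisimple_of_diag exists_cartan_end killing_of)

attribute [local instance 100] LieRing.ofAssociativeRing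

namespace PF.C

variable {K : Type*} [Field K] [CharZero K] [IsAlgClosed K] {V : Type*} [AddCommGroup V] [Module K V]
  [FiniteDimensional K V] {ω : LinearMap.BilinForm K V} {L : LieSubalgebra K (Module.End K V)}

/-- An element with pairwise distinct weights has simple eigenvalues. -/
theorem finrank_eig [IsKilling K L] {H : LieSubalgebra K L} [H.IsCartanSubalgebra] {I : Type*} [Fintype I]
    (B : WB (V := V) H I) (h : H) (hw : ∀ i j, B.w i h = B.w j h → i = j) (c : K) :
    finrank K (Module.End.eigenspace ((h : L) : Module.End K V) c) ≤ 1 := by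
  by_cases hc : ∃ i, B.w i h = c
  · obtain ⟨i, hi⟩ := hc
    have hmem : B.v i ∈ Module.End.eigenspace ((h : L) : Module.End K V) c := by
      rw [Module.End.mem_eigenspace_iff, ← hi]
      exact B.lie_v i h
    refine finrank_le_one (⟨B.v i, hmem⟩ : Module.End.eigenspace ((h : L) : Module.End K V) c) ?_
    rintro ⟨u, hu⟩
    refine ⟨B.v.repr u i, ?_⟩
    apply Subtype.ext
    change B.v.repr u i • B.v i = u
    conv_rhs => rw [← B.v.sum_repr u]
    symm
    refine Finset.sum_eq_single i (fun j _ hj => ?_) (fun h => absurd (Finset.mem_univ _) h)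
    by_cases h0 : B.v.repr u j = 0
    · rw [h0, zero_smul]
    · exfalso
      apply hj
      apply hw
      rw [hi]
      exact B.coord (Module.End.mem_eigenspace_iff.1 hu) h0
  · have h0 : Module.End.eigenspace ((h : L) : Module.End K V) c = ⊥ := by
      rw [eq_bot_iff]
      intro u hu
      rw [Submodule.mem_bot]
      apply B.v.repr.injective
      rw [map_zero]
      ext j
      by_contra hj
      exact hc ⟨j, B.coord (Module.End.mem_eigenspace_iff.1 hu) hj⟩
    rw [h0, finrank_bot]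
    exact zero_le_one

/-- **The core theorem, reduction to the types.** -/
theorem core_split (hnd : ω.Nondegenerate) [IsSimple K L]
    (hirr : ∀ W : Submodule K V, (∀ x ∈ L, ∀ u ∈ W, x u ∈ W) → W = ⊥ ∨ W = ⊤)
    (hsk : ∀ x ∈ L, ∀ u v, ω (x u) v = -ω u (x v)) {p : ℕ} (hp : p.Prime) (hd : p ∣ finrank K V)
    (h25 : 25 * finrank K V ≤ p ^ 2) {G : Prop}
    (hG : ∀ [IsKilling K L] (H : LieSubalgebra K L) [H.IsCartanSubalgebra] (m : ℕ) (B : WB (V := V) H (Fin m)),
      Nonempty (Fin m) → Nonempty H.root →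
      (∀ W : Submodule K V, (∀ x : L, ∀ u ∈ W, ⁅x, u⁆ ∈ W) → W = ⊥ ∨ W = ⊤) →
      TypeB (PhiS H) (XS B) ∨ TypeD (PhiS H) (XS B) → G) :
    G ∨ ∀ h ∈ L, h ≠ 0 → (⨆ c : K, Module.End.eigenspace h c) = ⊤ →
      ∀ c : K, finrank K (Module.End.eigenspace h c) ≤ 1 := by
  classical
  have hVn : Nontrivial V := by
    by_contra hcon
    rw [not_nontrivial_iff_subsingleton] at hcon
    apply LieAlgebra.IsSimple.non_abelian K (L := L)
    refine ⟨fun x y => Subtype.ext ?_⟩
    exact Subsingleton.elim _ _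
  have hS : MTP.IrrSymp ω L.toSubmodule := ⟨fun x hx y hy => L.lie_mem hx hy, fun x hx => hsk x hx, hirr⟩
  have hk : IsKilling K L := killing_of hnd hS
  by_cases hG' : G
  · exact Or.inl hG'
  right
  intro y hy hy0 hdiag c
  obtain ⟨H, hH, hyH⟩ := exists_cartan_end (L := L) ⟨y, hy⟩ (semisimple_of_diag hdiag)
  have hirrR : (rootSystem H).IsIrreducible := inferInstance
  have hne : Nonempty H.root := by
    by_contra hcon
    rw [not_nonempty_iff] at hcon
    have hN : Nontrivial H := RootPairing.IsIrreducible.nontrivial' (rootSystem H)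
    have h1 : (⊤ : Submodule K H) = ⊥ := by
      have h2 : (rootSystem H).corootSpan K = ⊤ := RootPairing.IsRootSystem.span_coroot_eq_top
      rw [← h2, RootPairing.corootSpan, Set.range_eq_empty, Submodule.span_empty]
    exact bot_ne_top h1.symm
  have hirr' : ∀ W : Submodule K V, (∀ x : L, ∀ u ∈ W, ⁅x, u⁆ ∈ W) → W = ⊥ ∨ W = ⊤ :=
    fun W hW => hirr W fun z hz w hw => hW ⟨z, hz⟩ w hw
  have hsk' : ∀ (x : L) (u v : V), ω ⁅x, u⁆ v = - ω u ⁅x, v⁆ := by
    intro x u v
    exact hsk x x.2 u v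
  have hfaith : ∀ x : L, (∀ u : V, ⁅x, u⁆ = 0) → x = 0 := by
    intro x hx
    apply Subtype.ext
    ext u
    exact hx u
  obtain ⟨m, ⟨B⟩⟩ := exists_WB (V := V) (H := H) hirr'
  have hcard : Fintype.card (Fin m) = finrank K V := by
    rw [Module.finrank_eq_card_basis B.v]
  have hI : Nonempty (Fin m) := by
    rw [← Fintype.card_pos_iff, hcard]
    exact finrank_pos
  have hlarge := exists_large B hirr' hfaith hp (by rw [hcard]; exact hd) hI
  rcases types B hI (fun i => neg_w B hnd hsk' i) hirr' hfaith hirrR (p := p) (by rw [hcard]; exact h25) hlarge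
      (fun Φ X h1 h2 h3 {p} h4 {a x} h5 h6 h7 => comb h1 h2 h3 h4 h5 h6 h7) with h1 | h1 | h1
  · have hy' : (⟨⟨y, hy⟩, hyH⟩ : H) ≠ 0 := by
      intro h
      apply hy0
      have := congrArg (fun z : H => ((z : L) : Module.End K V)) h
      exact this
    exact finrank_eig B ⟨⟨y, hy⟩, hyH⟩ (fun i j hij => (typeA_simple B hirr' h1).2 _ hy' hij) c
  · exact absurd (hG H m B hI hne hirr' (Or.inl h1)) hG'
  · exact absurd (hG H m B hI hne hirr' (Or.inr h1)) hG'

/-- **The core theorem for an alternating form.** -/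
theorem core_alt (halt : ω.IsAlt) (hnd : ω.Nondegenerate) [IsSimple K L]
    (hirr : ∀ W : Submodule K V, (∀ x ∈ L, ∀ u ∈ W, x u ∈ W) → W = ⊥ ∨ W = ⊤)
    (hsk : ∀ x ∈ L, ∀ u v, ω (x u) v = -ω u (x v)) {p : ℕ} (hp : p.Prime) (hd : p ∣ finrank K V)
    (h25 : 25 * finrank K V ≤ p ^ 2) :
    (∀ x : Module.End K V, (∀ u v, ω (x u) v = -ω u (x v)) → x ∈ L) ∨
      ∀ h ∈ L, h ≠ 0 → (⨆ c : K, Module.End.eigenspace h c) = ⊤ →
        ∀ c : K, finrank K (Module.End.eigenspace h c) ≤ 1 := by
  refine core_split hnd hirr hsk hp hd h25 ?_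
  intro _ H _ m B hI hne hirr' ht x hx
  have hsk' : ∀ (x : L) (u v : V), ω ⁅x, u⁆ v = - ω u ⁅x, v⁆ := by
    intro x u v
    exact hsk x x.2 u v
  rcases ht with ht | ht
  · exfalso
    obtain ⟨N, y, hy, c, hc, hX, -⟩ := ht
    obtain ⟨i, hi⟩ := mem_XS.1 ((hX 0).2 (Or.inl rfl))
    have h0 : B.w i = 0 := by
      apply toE_inj (intl_w B i) intl_zero
      rw [hi, toE_zero]
    obtain ⟨b⟩ := RootPairing.nonempty_base (rootSystem H)
    obtain ⟨d, hd, hdodd⟩ := odd_rho B hirr' hnd halt hsk' b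
    have h1 := hd i
    rw [h0, LinearMap.zero_apply] at h1
    have h2 : d i = 0 := by exact_mod_cast h1.symm
    have h3 := hdodd i
    rw [h2] at h3
    exact absurd h3 (by decide)
  · exact typeD_sp B hirr' ht hnd halt hsk' hx

end PF.C
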