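import Pool.Agent.Helper14.PF.CoreW
import Pool.Agent.Helper14.PF.SpFin
import Pool.Agent.Helper98.PF.Wrap

/-!
Project PF in all weights: `CoreW` from the theorem on Lie subalgebras of endomorphisms.
-/

open Matrix Module

attribute [local instance 100] LieRing.ofAssociativeRing

namespace MH

variable {n : Type*} [Fintype n] [DecidableEq n]

theorem coreW_of {w : ℤ} {r : ℤ → ℕ} (h2 : 2 ≤ Fintype.card n) (hM : ∃ q, 2 ≤ r q)
    (core : ∀ ω : LinearMap.BilinForm ℂ (n → ℂ), ω.IsSymm → ω.Nondegenerate →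
      ∀ L : LieSubalgebra ℂ (Module.End ℂ (n → ℂ)), LieAlgebra.IsSimple ℂ L →
      (∀ W : Submodule ℂ (n → ℂ), (∀ x ∈ L, ∀ u ∈ W, x u ∈ W) → W = ⊥ ∨ W = ⊤) →
      (∀ x ∈ L, ∀ u v, ω (x u) v = -ω u (x v)) →
      (∀ x : Module.End ℂ (n → ℂ), (∀ u v, ω (x u) v = -ω u (x v)) → x ∈ L) ∨
        ∀ h ∈ L, h ≠ 0 → (⨆ c : ℂ, Module.End.eigenspace h c) = ⊤ →
          ∀ c : ℂ, finrank ℂ (Module.End.eigenspace h c) ≤ 1)
    {p : ℕ} (hp : p.Prime) (hd : p ∣ Fintype.card n) (h25 : 25 * Fintype.card n ≤ p ^ 2)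
    (h0 : ∀ q, 2 * q = w → r q ≠ Fintype.card n) : CoreW n w r := by
  intro Q' Qi hQ hQ1 hQ2 L hbr hirr hsk hs h E Λ hh hE hint hr X hX
  have key : (∀ x : Module.End ℂ (n → ℂ), (∀ u v, Matrix.toBilin' Q' (x u) v = -Matrix.toBilin' Q' u (x v)) →
      x ∈ lieOf L hbr) ∨ ∀ h ∈ lieOf L hbr, h ≠ 0 → (⨆ c : ℂ, Module.End.eigenspace h c) = ⊤ →
        ∀ c : ℂ, finrank ℂ (Module.End.eigenspace h c) ≤ 1 := by
    rcases hQ with hQ | hQ
    · exact core (Matrix.toBilin' Q') (form_symm98 hQ) (form_nondeg98 hQ1) (lieOf L hbr) (lieOf_simple hirr h2 hs)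
        (lieOf_irr hirr) (lieOf_sk hsk)
    · haveI := lieOf_simple (hbr := hbr) hirr h2 hs
      have halt : (Matrix.toBilin' Q').IsAlt := by
        intro u
        have h3 := form_alt98 hQ u u
        have h4 : (2 : ℂ) * Matrix.toBilin' Q' u u = 0 := by linear_combination h3
        exact (mul_eq_zero.1 h4).resolve_left two_ne_zero
      exact PF.C.core_alt halt (form_nondeg98 hQ1) (lieOf_irr hirr) (lieOf_sk hsk) hp
        (by rw [Module.finrank_fintype_fun_eq_card]; exact hd)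
        (by rw [Module.finrank_fintype_fun_eq_card]; exact h25)
  rcases key with h3 | h3
  · have h4 : Matrix.toLin' X ∈ lieOf L hbr := by
      apply h3
      intro u v
      rw [Matrix.toLin'_apply, Matrix.toLin'_apply]
      exact skew_iff98.1 hX u v
    rw [mem_lieOf, LinearMap.toMatrix'_toLin'] at h4
    exact h4
  · exfalso
    obtain ⟨q, hq⟩ := hM
    have hne : Matrix.toLin' h ≠ 0 := by
      intro h5
      have h6 : h = 0 := (LinearEquiv.map_eq_zero_iff _).1 h5
      have h7 := hE.finrank_eig98 0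
      rw [h5] at h7
      have h8 : Module.End.eigenspace (0 : Module.End ℂ (n → ℂ)) ((0 : ℝ) : ℂ) = ⊤ := by
        rw [eq_top_iff]
        intro v _
        rw [Module.End.mem_eigenspace_iff]
        simp
      rw [h8, finrank_top, Module.finrank_fintype_fun_eq_card] at h7
      have h9 : E 0 ≠ 0 := by
        intro h10
        rw [h10, Matrix.rank_zero] at h7
        omega
      obtain ⟨m, hm⟩ := hint 0 h9
      have h11 : 2 * m = w := by
        have : (2 * m - w : ℤ) = 0 := by exact_mod_cast hm.symm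
        omega
      apply h0 m h11
      rw [← hr m, ← hm, h7]
    have h5 := h3 _ (toLin_mem_lieOf hh) hne hE.iSup_eig98 (((2 * q - w : ℤ) : ℝ) : ℂ)
    rw [hE.finrank_eig98, hr] at h5
    omega

end MH
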