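import Pool.Agent.Helper98.PF.Core

/-!
Project PF in all weights: the core statement for symmetric and alternating forms.
-/

open Matrix

namespace MH

/-- A simple irreducible Lie algebra of matrices that are skew for a symmetric or alternating form and that
contains a diagonalisable element with the eigenvalues `2 p - w` and the multiplicities `r p` contains all skew
matrices. -/
def CoreW (n : Type*) [Fintype n] [DecidableEq n] (w : ℤ) (r : ℤ → ℕ) : Prop :=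
  ∀ Q' Qi : Matrix n n ℂ, (Q'ᵀ = Q' ∨ Q'ᵀ = -Q') → Q' * Qi = 1 → Qi * Q' = 1 →
    ∀ L : Submodule ℂ (Matrix n n ℂ), (∀ X ∈ L, ∀ Y ∈ L, X * Y - Y * X ∈ L) →
      (∀ W : Submodule ℂ (n → ℂ), (∀ X ∈ L, ∀ w ∈ W, X *ᵥ w ∈ W) → W = ⊥ ∨ W = ⊤) →
      (∀ X ∈ L, Xᵀ * Q' + Q' * X = 0) → Smp L →
    ∀ (h : Matrix n n ℂ) (E : ℝ → Matrix n n ℂ) (Λ : Finset ℝ), h ∈ L → SD h E Λ →
      (∀ μ : ℝ, E μ ≠ 0 → ∃ p : ℤ, μ = ((2 * p - w : ℤ) : ℝ)) →
      (∀ p : ℤ, (E ((2 * p - w : ℤ) : ℝ)).rank = r p) →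
    ∀ X : Matrix n n ℂ, Xᵀ * Q' + Q' * X = 0 → X ∈ L

/-- The even case. -/
theorem CoreW.core {n : Type*} [Fintype n] [DecidableEq n] {m : ℤ} {r : ℤ → ℕ} (H : CoreW n (2 * m) r) :
    Core n m r := by
  intro Q' Qi hQ h1 h2 L hbr hirr hsk hs h E Λ hh hE hint hr X hX
  refine H Q' Qi (Or.inl hQ) h1 h2 L hbr hirr hsk hs ((2 : ℂ) • h) (fun μ => E (μ / 2)) (Λ.image fun μ => 2 * μ)
    (L.smul_mem _ hh) ?_ ?_ ?_ X hX
  · refine ⟨fun μ ν => ?_, ?_, ?_⟩
    · rw [hE.mul]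
      by_cases hμ : μ = ν
      · rw [if_pos hμ, if_pos (by rw [hμ])]
      · rw [if_neg hμ, if_neg (fun h => hμ (by linarith))]
    · rw [← hE.sum, Finset.sum_image (fun a _ b _ h => by linarith)]
      refine Finset.sum_congr rfl fun μ _ => ?_
      rw [mul_div_cancel_left₀ _ (two_ne_zero)]
    · rw [hE.eq, Finset.smul_sum, Finset.sum_image (fun a _ b _ h => by linarith)]
      refine Finset.sum_congr rfl fun μ _ => ?_
      rw [mul_div_cancel_left₀ _ (two_ne_zero), smul_smul]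
      push_cast
      rfl
  · intro μ hμ
    obtain ⟨p, hp⟩ := hint _ hμ
    refine ⟨p, ?_⟩
    push_cast at hp ⊢
    linarith
  · intro p
    have : (((2 * p - 2 * m : ℤ) : ℝ) / 2) = ((p - m : ℤ) : ℝ) := by
      push_cast
      ring
    simp only [this]
    exact hr p

end MH
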