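import Pool.Agent.Helper14.PF.CoreFin
import Pool.Agent.Helper14.GP.Mt3
import Pool.Agent.Helper81.PF.C9
import Pool.Agent.Helper71.PF.OddEnd
import Pool.Agent.Helper21.PF.Gal

/-!
Project PF in all weights (MP_b8862a_ag): the main theorem.
-/

set_option linter.unusedSectionVars false

open Matrix Module

namespace MH

variable {n : Type*} [Fintype n] [DecidableEq n]

/-- The group `Γ` consists of similitudes of `Q` (isometries in weight zero), `R p` is the projection to the part of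
Hodge-Tate weight `p`, the ranks are the Hodge numbers, and the tensors fixed by subgroups of finite index of `Γ` have
weight zero. -/
structure IsGalP (w : ℤ) (Q : Matrix n n ℚ) (S : Finset ℤ) (P : ℤ → Matrix n n ℂ) (Γ : Subgroup (GL n ℂ))
    (R : ℤ → Matrix n n ℂ) : Prop where
  sim : ∀ g ∈ Γ, ∃ z : ℂ, (w = 0 → z = 1) ∧ (g : Matrix n n ℂ)ᵀ * toC Q * (g : Matrix n n ℂ) = z ^ 2 • toC Q
  mul : ∀ p q, R p * R q = if p = q then R p else 0
  sum : ∑ p ∈ S, R p = 1
  rank : ∀ p, (R p).rank = (P p).rank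
  ht : ∀ a b t, IsTateTensor Γ a b t → ∀ z : ℂ, z ≠ 0 →
    actF (slot a b (∑ p ∈ S, z ^ p • R p) (∑ p ∈ S, z⁻¹ ^ p • R p)) t = t

variable {w m : ℤ} {Q : Matrix n n ℚ} {S : Finset ℤ} {P R : ℤ → Matrix n n ℂ} {Γ : Subgroup (GL n ℂ)}

theorem IsGalP.even (G : IsGalP (2 * m) Q S P Γ R) : IsGal m Q S P Γ R where
  sim := by
    intro g hg
    obtain ⟨z, h1, h2⟩ := G.sim g hg
    exact ⟨z, fun hm => h1 (by rw [hm, mul_zero]), h2⟩
  mul := G.mul
  sum := G.sum
  rank := G.rank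
  ht := G.ht

theorem IsGalP.odd (G : IsGalP w Q S P Γ R) : IsGalO Q S P Γ R where
  sim := by
    intro g hg
    obtain ⟨z, _, h2⟩ := G.sim g hg
    exact ⟨z ^ 2, h2⟩
  mul := G.mul
  sum := G.sum
  rank := G.rank
  ht := G.ht

/-- Hodge structures of even weight -/
theorem IsHW.toHS (H : IsHW (2 * m) Q S P) : IsHS m Q S P where
  mul := H.mul
  supp := H.supp
  sum := H.sum
  conj := H.conj
  symm := by
    have h1 := H.symm
    rwa [(even_two_mul m).neg_one_zpow, one_smul] at h1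
  orth := H.orth
  pos := by
    intro p v hv hv0
    have h1 := H.pos p v hv hv0
    have e1 : Complex.I ^ (2 * p - 2 * m) = (((-1 : ℝ) ^ (p - m) : ℝ) : ℂ) := by
      rw [← mul_sub, _root_.zpow_mul, Complex.ofReal_zpow]
      congr 1
      norm_num
    rw [e1, Complex.re_ofReal_mul] at h1
    exact h1

/-- a polarised Hodge structure of rank at least two with only scalar endomorphisms is not of type `(m, m)` -/
theorem IsHW.rank_ne (H : IsHW w Q S P)
    (hEnd : ∀ A : Matrix n n ℚ, (∀ p, toC A * P p = P p * toC A) → ∃ c : ℚ, A = c • (1 : Matrix n n ℚ))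
    (h2 : 2 ≤ Fintype.card n) (q : ℤ) : (P q).rank ≠ Fintype.card n := by
  intro hr
  have h1 : P q = 1 := by
    have hPP : P q * P q = P q := by rw [H.mul, if_pos rfl]
    have h3 : (1 - P q) * (1 - P q) = 1 - P q := by
      rw [sub_mul, mul_sub, mul_sub, hPP, one_mul, mul_one, one_mul, sub_self, sub_zero]
    have h4 : (1 - P q).trace = 0 := by
      rw [Matrix.trace_sub, Matrix.trace_one, trace_eq_rank hPP, hr, sub_self]
    rw [trace_eq_rank h3] at h4
    have h5 : (1 - P q).rank = 0 := by exact_mod_cast h4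
    rw [Matrix.rank, Submodule.finrank_eq_zero, LinearMap.range_eq_bot] at h5
    have h6 : 1 - P q = 0 := (LinearEquiv.map_eq_zero_iff Matrix.toLin').1 h5
    exact (sub_eq_zero.1 h6).symm
  have hall : ∀ A : Matrix n n ℚ, ∃ c : ℚ, A = c • (1 : Matrix n n ℚ) := by
    intro A
    refine hEnd A fun p => ?_
    by_cases hp : p = q
    · rw [hp, h1, mul_one, one_mul]
    · have h3 : P p = 0 := by
        have h4 := H.mul p q
        rw [if_neg hp, h1, mul_one] at h4
        exact h4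
      rw [h3, mul_zero, zero_mul]
  obtain ⟨i, j, hij⟩ : ∃ i j : n, i ≠ j := by
    have h3 : 1 < Fintype.card n := h2
    rw [Fintype.one_lt_card_iff] at h3
    exact h3
  obtain ⟨c, hc⟩ := hall (Matrix.single i i 1)
  have e1 : (1 : ℚ) = c := by
    have h3 := congrFun (congrFun hc i) i
    simpa [Matrix.single] using h3
  have e2 : (0 : ℚ) = c := by
    have h3 := congrFun (congrFun hc j) j
    simpa [Matrix.single, hij] using h3
  rw [← e1] at e2
  exact one_ne_zero e2.symm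

/-- the core statement for the Hodge numbers -/
theorem IsHW.coreW_prime (H : IsHW w Q S P)
    (hEnd : ∀ A : Matrix n n ℚ, (∀ p, toC A * P p = P p * toC A) → ∃ c : ℚ, A = c • (1 : Matrix n n ℚ))
    (h2 : ∃ p, 2 ≤ (P p).rank) {q : ℕ} (hq : q.Prime) (hd : q ∣ Fintype.card n) (h25 : 25 * Fintype.card n ≤ q ^ 2) :
    25 ≤ Fintype.card n ∧ CoreW n w (fun p => (P p).rank) := by
  obtain ⟨p, hp⟩ := h2
  have h0 : 2 ≤ Fintype.card n := le_trans hp (Matrix.rank_le_card_height (P p))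
  have hqn : q ≤ Fintype.card n := Nat.le_of_dvd (by omega) hd
  have h1 : 25 ≤ q := by
    have h3 : 25 * q ≤ q * q := by
      calc 25 * q ≤ 25 * Fintype.card n := Nat.mul_le_mul_left _ hqn
        _ ≤ q ^ 2 := h25
        _ = q * q := sq q
    exact Nat.le_of_mul_le_mul_right h3 hq.pos
  refine ⟨by omega, coreW_of h0 ⟨p, hp⟩ ?_ hq hd h25 fun p _ => H.rank_ne hEnd h0 p⟩
  intro ω hsymm hnd L hL hirr hsk
  exact PF.C.core ω hsymm hnd L hirr hsk hq (by rw [Module.finrank_fintype_fun_eq_card]; exact hd)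
    (by rw [Module.finrank_fintype_fun_eq_card]; exact h25)

/-- the tensors of type (1,1) fixed by the Mumford-Tate group -/
theorem IsHW.fix_t11 (H : IsHW w Q S P)
    (hEnd : ∀ A : Matrix n n ℚ, (∀ p, toC A * P p = P p * toC A) → ∃ c : ℚ, A = c • (1 : Matrix n n ℚ))
    {T : Matrix n n ℂ} (hT : MTfix S P 1 1 (t11 T)) : ∃ c : ℂ, T = c • (1 : Matrix n n ℂ) := by
  refine EC_scalar98 hEnd (H.cent_MT (Γ' := MT S P) (by rw [Subgroup.relIndex_self]; exact one_ne_zero) ?_)
  intro g hg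
  have h1 := hT g hg
  rw [slot11] at h1
  have h2 := t11_inj h1
  have h3 : ((g⁻¹ : GL n ℂ) : Matrix n n ℂ) * (g : Matrix n n ℂ) = 1 := by
    rw [← Units.val_mul, inv_mul_cancel, Units.val_one]
  calc (g : Matrix n n ℂ) * T = (g : Matrix n n ℂ) * T * ((g⁻¹ : GL n ℂ) : Matrix n n ℂ) * (g : Matrix n n ℂ) := by
        rw [mul_assoc _ ((g⁻¹ : GL n ℂ) : Matrix n n ℂ), h3, mul_one]
    _ = T * (g : Matrix n n ℂ) := by rw [h2]

/-- semisimplicity and the tensors of type (1,1) give potential absolute irreducibility -/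
theorem potIrr_of_t11 {F : Type*} [Field F] (ι : F →+* ℂ) {Γ : Subgroup (GL n F)} (hss : SemiS Γ) (H : IsHW w Q S P)
    (hEnd : ∀ A : Matrix n n ℚ, (∀ p, toC A * P p = P p * toC A) → ∃ c : ℚ, A = c • (1 : Matrix n n ℚ))
    (h11 : ∀ t, IsTateTensor (Γ.map (Matrix.GeneralLinearGroup.map ι)) 1 1 t → MTfix S P 1 1 t) : PotIrr Γ := by
  refine potIrr_of_semiS hss fun Γ' hle hi T hT => ?_
  have h1 : IsTateTensor (Γ.map (Matrix.GeneralLinearGroup.map ι)) 1 1 (t11 (T.map ι)) := by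
    refine ⟨Γ'.map (Matrix.GeneralLinearGroup.map ι), Subgroup.map_mono hle, ?_, ?_⟩
    · have hinj : Function.Injective (Matrix.GeneralLinearGroup.map (n := n) ι) := by
        intro a b hab
        apply Units.ext
        ext i j
        have h2 := congrArg (fun g : GL n ℂ => (g : Matrix n n ℂ) i j) hab
        exact ι.injective h2
      rw [Subgroup.relIndex_map_map_of_injective _ _ hinj]
      exact hi
    · rintro _ ⟨g, hg, rfl⟩
      rw [slot11]
      have e1 : ((Matrix.GeneralLinearGroup.map ι g : GL n ℂ) : Matrix n n ℂ) * T.map ι =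
          T.map ι * ((Matrix.GeneralLinearGroup.map ι g : GL n ℂ) : Matrix n n ℂ) := by
        have h2 := congrArg (fun Y : Matrix n n F => Y.map ι) (hT g hg)
        rw [Matrix.map_mul, Matrix.map_mul] at h2
        exact h2
      rw [e1, mul_assoc, ← Units.val_mul, mul_inv_cancel, Units.val_one, mul_one]
  obtain ⟨c, hc⟩ := H.fix_t11 hEnd (h11 _ h1)
  rcases isEmpty_or_nonempty n with hn | ⟨⟨i⟩⟩
  · exact ⟨1, by ext i; exact hn.elim i⟩
  refine ⟨T i i, ?_⟩
  ext a b
  have e1 : ∀ a b, ι (T a b) = c * (1 : Matrix n n ℂ) a b := by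
    intro a b
    have h3 := congrFun (congrFun hc a) b
    rw [Matrix.map_apply, Matrix.smul_apply, smul_eq_mul] at h3
    exact h3
  apply ι.injective
  rw [e1, Matrix.smul_apply, smul_eq_mul, map_mul, e1, Matrix.one_apply_eq, mul_one]
  by_cases hab : a = b
  · rw [hab, Matrix.one_apply_eq, Matrix.one_apply_eq, map_one]
  · rw [Matrix.one_apply_ne hab, Matrix.one_apply_ne hab, map_zero]

/-- **The Mumford-Tate group.** -/
theorem IsHW.MT_prime (H : IsHW w Q S P)
    (hEnd : ∀ A : Matrix n n ℚ, (∀ p, toC A * P p = P p * toC A) → ∃ c : ℚ, A = c • (1 : Matrix n n ℚ))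
    (hI : NI.Indec w (fun p => (P p).rank)) (h2 : ∃ p, 2 ≤ (P p).rank) {q : ℕ} (hq : q.Prime)
    (hd : q ∣ Fintype.card n) (h25 : 25 * Fintype.card n ≤ q ^ 2) (g : GL n ℂ) :
    g ∈ MT S P ↔ ∃ z : ℂ, (w = 0 → z = 1) ∧ (g : Matrix n n ℂ)ᵀ * toC Q * (g : Matrix n n ℂ) = z ^ 2 • toC Q ∧
      (Even w → (g : Matrix n n ℂ).det = z ^ Fintype.card n) := by
  obtain ⟨hn, hcore⟩ := H.coreW_prime hEnd h2 hq hd h25
  have hne : Nonempty n := Fintype.card_pos_iff.mp (by omega)
  have hnum : ∀ d k : ℕ, 2 ≤ d → 2 ≤ k → Fintype.card n = d ^ k → (∀ p, d ^ (k - 1) ∣ (P p).rank) → False :=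
    fun d k hd2 hk hc _ => num_prime98 hq hd (by omega) hk hc hd2
  have hkill := fun (X : Matrix n n ℂ) (hX : Xᵀ * toC Q + toC Q * X = 0) => kills_coreW H hEnd hI hcore hnum hX
  rcases Int.even_or_odd w with hw | hw
  · obtain ⟨m, rfl⟩ := hw.two_dvd
    have H' := H.toHS
    constructor
    · intro hg
      obtain ⟨z, h1, h3, h4⟩ := MT_le H' hg
      exact ⟨z, fun h0 => h1 (by omega), h3, fun _ => h4⟩
    · rintro ⟨z, h1, h3, h4⟩
      exact zso_le_MT H' (fun g hg hd => so_le_MT_of H' hkill hg hd) (fun h0 => h1 (by rw [h0, mul_zero])) h3 (h4 hw)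
  · rw [H.MT_coreW hw hEnd hI hcore hnum]
    have hw0 : w ≠ 0 := by
      rintro rfl
      exact absurd hw (by decide)
    constructor
    · rintro ⟨z, hz⟩
      obtain ⟨y, hy⟩ := IsAlgClosed.exists_pow_nat_eq z (n := 2) (by norm_num)
      exact ⟨y, fun h0 => absurd h0 hw0, by rw [hy]; exact hz, fun h0 => absurd hw (Int.not_odd_iff_even.2 h0)⟩
    · rintro ⟨z, _, h3, _⟩
      exact ⟨z ^ 2, h3⟩

/-- **The `ℓ`-adic side.** -/
theorem IsHW.tate_prime (H : IsHW w Q S P)
    (hEnd : ∀ A : Matrix n n ℚ, (∀ p, toC A * P p = P p * toC A) → ∃ c : ℚ, A = c • (1 : Matrix n n ℚ))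
    (hI : NI.Indec w (fun p => (P p).rank)) (h2 : ∃ p, 2 ≤ (P p).rank) {q : ℕ} (hq : q.Prime)
    (hd : q ∣ Fintype.card n) (h25 : 25 * Fintype.card n ≤ q ^ 2) (G : IsGalP w Q S P Γ R)
    (hG : (∃ D : Subgroup (GL n ℚ), IsMon Q S P D ∧ mapC D ≤ Γ) ∨ ((∀ d : ℕ, (∀ p, d ∣ (P p).rank) → d = 1) ∧ VIrr Γ))
    (a b : ℕ) (t : (Fin a ⊕ Fin b → n) → ℂ) : IsTateTensor Γ a b t ↔ MTfix S P a b t := by
  obtain ⟨hn, hcore⟩ := H.coreW_prime hEnd h2 hq hd h25
  have hne : Nonempty n := Fintype.card_pos_iff.mp (by omega)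
  have hnum : ∀ d k : ℕ, 2 ≤ d → 2 ≤ k → Fintype.card n = d ^ k → (∀ p, d ^ (k - 1) ∣ (P p).rank) → False :=
    fun d k hd2 hk hc _ => num_prime98 hq hd (by omega) hk hc hd2
  have hkill := fun (X : Matrix n n ℂ) (hX : Xᵀ * toC Q + toC Q * X = 0) => kills_coreW H hEnd hI hcore hnum hX
  rcases Int.even_or_odd w with hw | hw
  · obtain ⟨m, rfl⟩ := hw.two_dvd
    have H' := H.toHS
    have hMT : ∀ (g : GL n ℂ) (z : ℂ), (m = 0 → z = 1) →
        (g : Matrix n n ℂ)ᵀ * toC Q * (g : Matrix n n ℂ) = z ^ 2 • toC Q →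
        (g : Matrix n n ℂ).det = z ^ Fintype.card n → g ∈ MT S P :=
      fun g z hz hg hd => zso_le_MT H' (fun g hg hd => so_le_MT_of H' hkill hg hd) hz hg hd
    rcases hG with ⟨D, hD, hle⟩ | ⟨hgcd, hirr⟩
    · exact tate_of_full H' G.even hMT (fun X hX => LG_mono hle (hD.full H hw (by omega) hkill hX)) a b t
    · exact tate_iff_core H' G.even hirr hMT hI hcore.core hgcd a b t
  · rcases hG with ⟨D, hD, hle⟩ | ⟨hgcd, hirr⟩
    · exact G.odd.tate_coreW_mon H hw hEnd hI hcore hnum hD hle a b t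
    · exact G.odd.tate_coreW H hw hEnd hI hcore hnum hgcd hirr a b t

end MH
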