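import Pool.Agent.Helper3.PF.WDefs
import Pool.Agent.Helper88.MT.Top

/-!
Project PF / L, block L3: the highest weight of an irreducible module.
-/

open Module LieModule LieAlgebra LieAlgebra.IsKilling AddMonoidAlgebra MTP.MF PF.W

namespace PF.L

section rp

variable {ι K M N : Type*} [Field K] [AddCommGroup M] [Module K M] [AddCommGroup N] [Module K N]
  {P : RootPairing ι K M N} [CharZero K]

/-- A positive root is a sum of simple roots. -/
theorem pos_sum (b : P.Base) {i : ι} (h : b.IsPos i) :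
    ∃ f : ι → ℕ, P.root i = ∑ j ∈ b.support, (f j : K) • P.root j := by
  obtain ⟨f, _, hf | hf⟩ := b.exists_root_eq_sum_nat_or_neg i
  · exact ⟨f, by rw [hf]; exact Finset.sum_congr rfl fun j _ => (Nat.cast_smul_eq_nsmul K (f j) (P.root j)).symm⟩
  · exfalso
    have h1 : P.root i = ∑ j ∈ b.support, (fun j => -(f j : ℤ)) j • P.root j := by
      rw [hf, ← Finset.sum_neg_distrib]
      exact Finset.sum_congr rfl fun j _ => by simp
    have h2 := RootPairing.Base.height_eq_sum h1
    have h3 : 0 < b.height i := h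
    rw [h2] at h3
    have h4 : ∑ j ∈ b.support, (fun j => -(f j : ℤ)) j ≤ 0 := Finset.sum_nonpos fun j _ => by simp
    exact absurd h3 (not_lt.2 h4)

/-- The opposite of a root that is not positive is a sum of simple roots. -/
theorem neg_sum (b : P.Base) {i : ι} (h : ¬ b.IsPos i) :
    ∃ f : ι → ℕ, P.root i = -∑ j ∈ b.support, (f j : K) • P.root j := by
  obtain ⟨f, _, hf | hf⟩ := b.exists_root_eq_sum_nat_or_neg i
  · exfalso
    have h1 : P.root i = ∑ j ∈ b.support, (fun j => (f j : ℤ)) j • P.root j := by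
      rw [hf]
      exact Finset.sum_congr rfl fun j _ => by simp
    have h2 := RootPairing.Base.height_eq_sum h1
    have h3 : ¬ 0 < b.height i := h
    have h5 := b.height_ne_zero i
    rw [h2] at h3 h5
    have h4 : 0 ≤ ∑ j ∈ b.support, (fun j => (f j : ℤ)) j := Finset.sum_nonneg fun j _ => by simp
    exact h3 (lt_of_le_of_ne h4 (Ne.symm h5))
  · exact ⟨f, by rw [hf]; congr 1; exact Finset.sum_congr rfl fun j _ =>
      (Nat.cast_smul_eq_nsmul K (f j) (P.root j)).symm⟩

end rp

variable {K : Type*} [Field K] [CharZero K] [IsAlgClosed K]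
  {L : Type*} [LieRing L] [LieAlgebra K L] [FiniteDimensional K L] [IsKilling K L]
  {H : LieSubalgebra K L} [H.IsCartanSubalgebra]
  {V : Type*} [AddCommGroup V] [Module K V] [FiniteDimensional K V]
  [LieRingModule L V] [LieModule K L V] {I : Type*} [Fintype I]

/-- A vector killed by the positive root spaces generates an irreducible module under the negative root spaces. -/
theorem gen_neg (B : WB (V := V) H I)
    (hirr : ∀ W : Submodule K V, (∀ x : L, ∀ u ∈ W, ⁅x, u⁆ ∈ W) → W = ⊥ ∨ W = ⊤)
    (b : (rootSystem H).Base) {t : I}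
    (h0 : ∀ α : H.root, b.IsPos α → ∀ x ∈ rootSpace H α.1, ⁅x, B.v t⁆ = 0) (N : Submodule K V)
    (hN : B.v t ∈ N) (hcl : ∀ α : H.root, ¬ b.IsPos α → ∀ x ∈ rootSpace H α.1, ∀ u ∈ N, ⁅x, u⁆ ∈ N) :
    N = ⊤ := by
  classical
  let Neg : L → Prop := fun x => ∃ α : H.root, ¬ b.IsPos α ∧ x ∈ rootSpace H α.1
  let M : Submodule K V := sInf {U | B.v t ∈ U ∧ ∀ x, Neg x → ∀ u ∈ U, ⁅x, u⁆ ∈ U}
  have hM1 : B.v t ∈ M := by
    rw [Submodule.mem_sInf]
    rintro U ⟨hU, _⟩
    exact hU
  have hM2 : ∀ x, Neg x → ∀ u ∈ M, ⁅x, u⁆ ∈ M := by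
    intro x hx u hu
    rw [Submodule.mem_sInf] at *
    intro U hU
    exact hU.2 x hx u (hu U hU)
  have hMle : ∀ U : Submodule K V, B.v t ∈ U → (∀ x, Neg x → ∀ u ∈ U, ⁅x, u⁆ ∈ U) → M ≤ U :=
    fun U h1 h2 => sInf_le ⟨h1, h2⟩
  have hM3 : ∀ x : L, ∀ u ∈ M, ⁅x, u⁆ ∈ M := by
    let U : Submodule K V :=
      { carrier := {u | u ∈ M ∧ ∀ x : L, ⁅x, u⁆ ∈ M}
        add_mem' := by
          rintro a a' ⟨h1, h2⟩ ⟨h3, h4⟩
          exact ⟨M.add_mem h1 h3, fun x => by rw [lie_add]; exact M.add_mem (h2 x) (h4 x)⟩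
        zero_mem' := ⟨M.zero_mem, fun x => by rw [lie_zero]; exact M.zero_mem⟩
        smul_mem' := by
          rintro k a ⟨h1, h2⟩
          exact ⟨M.smul_mem _ h1, fun x => by rw [lie_smul]; exact M.smul_mem _ (h2 x)⟩ }
    have hU : M ≤ U := by
      apply hMle
      · refine ⟨hM1, fun x => ?_⟩
        let X : Submodule K L :=
          { carrier := {x | ⁅x, B.v t⁆ ∈ M}
            add_mem' := by
              intro a b ha hb
              simp only [Set.mem_ofPred_eq, add_lie] at *
              exact add_mem ha hb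
            zero_mem' := by simp
            smul_mem' := by
              intro c a ha
              simp only [Set.mem_ofPred_eq, smul_lie] at *
              exact Submodule.smul_mem _ _ ha }
        refine root_induction (U := X) (H := H) ?_ x
        intro α z hz
        change ⁅z, B.v t⁆ ∈ M
        by_cases hα : α.IsZero
        · have hzH : z ∈ H := by
            rw [hα.eq] at hz
            rwa [rootSpace_zero_eq, LieSubalgebra.mem_toLieSubmodule] at hz
          have h1 : ⁅z, B.v t⁆ = B.w t ⟨z, hzH⟩ • B.v t := B.lie_v t ⟨z, hzH⟩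
          rw [h1]
          exact Submodule.smul_mem _ _ hM1
        · have hα' : α ∈ H.root := by simpa [LieSubalgebra.root] using hα
          by_cases hpos : b.IsPos ⟨α, hα'⟩
          · rw [h0 ⟨α, hα'⟩ hpos z hz]
            exact M.zero_mem
          · exact hM2 z ⟨⟨α, hα'⟩, hpos, hz⟩ _ hM1
      · rintro x hx u ⟨hu1, hu2⟩
        refine ⟨hM2 x hx u hu1, fun z => ?_⟩
        rw [leibniz_lie]
        exact M.add_mem (hu2 _) (hM2 x hx _ (hu2 z))
    intro x u hu
    exact (hU hu).2 x
  have hM4 : M = ⊤ := by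
    rcases hirr M hM3 with h | h
    · exfalso
      rw [h, Submodule.mem_bot] at hM1
      exact B.v.ne_zero t hM1
    · exact h
  rw [eq_top_iff, ← hM4]
  apply hMle N hN
  rintro x ⟨α, hα, hx⟩ u hu
  exact hcl α hα x hx u hu

/-- `i` is strictly below `t`. -/
def SBelow (B : WB (V := V) H I) (b : (rootSystem H).Base) (t i : I) : Prop :=
  ∃ κ : H.root → ℕ, (∃ j ∈ b.support, κ j ≠ 0) ∧
    B.w i = B.w t - ∑ j ∈ b.support, (κ j : K) • (rootSystem H).root j

theorem root_apply' (α : H.root) (h : H) : (rootSystem H).root α h = α.1 h := rfl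

theorem exists_max (B : WB (V := V) H I) [Nonempty I]
    (hirr : ∀ W : Submodule K V, (∀ x : L, ∀ u ∈ W, ⁅x, u⁆ ∈ W) → W = ⊥ ∨ W = ⊤) (b : (rootSystem H).Base) :
    ∃ t : I, ∀ α : H.root, b.IsPos α → ∀ x ∈ rootSpace H α.1, ⁅x, B.v t⁆ = 0 := by
  classical
  obtain ⟨i0⟩ : Nonempty I := inferInstance
  have h1 : ∀ i, ∃ n : ℤ, B.w i (rho2 b) = B.w i0 (rho2 b) + 2 * (n : K) := by
    refine B.conn hirr {i | ∃ n : ℤ, B.w i (rho2 b) = B.w i0 (rho2 b) + 2 * (n : K)}
      ⟨i0, 0, by simp⟩ ?_
    rintro α i j ⟨n, hn⟩ hj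
    refine ⟨n + b.height α, ?_⟩
    rw [hj, hn, root_rho]
    push_cast
    ring
  choose n hn using h1
  obtain ⟨t, ht⟩ := Finite.exists_max n
  refine ⟨t, fun α hα x hx => ?_⟩
  apply B.v.repr.injective
  rw [map_zero]
  ext j
  by_contra hj
  have h2 := B.coord_root hx hj (rho2 b)
  rw [hn j, hn t, root_rho] at h2
  have h3 : n j = b.height α + n t := by
    have h4 : (2 : K) * ((n j : ℤ) : K) = 2 * ((b.height α + n t : ℤ) : K) := by
      push_cast
      linear_combination h2
    exact Int.cast_injective (mul_left_cancel₀ two_ne_zero h4)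
  have h5 := ht j
  have h6 : 0 < b.height α := hα
  omega

/-- All weights are below the highest weight. -/
theorem below_top (B : WB (V := V) H I)
    (hirr : ∀ W : Submodule K V, (∀ x : L, ∀ u ∈ W, ⁅x, u⁆ ∈ W) → W = ⊥ ∨ W = ⊤) (b : (rootSystem H).Base)
    {t : I} (h0 : ∀ α : H.root, b.IsPos α → ∀ x ∈ rootSpace H α.1, ⁅x, B.v t⁆ = 0) (i : I) :
    i = t ∨ SBelow B b t i := by
  classical
  let N : Submodule K V :=
    { carrier := {u | ∀ i, ¬ (i = t ∨ SBelow B b t i) → B.v.repr u i = 0}
      add_mem' := by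
        intro a a' ha hb j hj
        rw [map_add, Finsupp.add_apply, ha j hj, hb j hj, add_zero]
      zero_mem' := by intro j _; simp
      smul_mem' := by
        intro c a ha j hj
        rw [map_smul, Finsupp.smul_apply, ha j hj, smul_zero] }
  have hN : N = ⊤ := by
    refine gen_neg B hirr b h0 N ?_ ?_
    · intro i hi
      rw [B.v.repr_self, Finsupp.single_apply, if_neg]
      intro h
      exact hi (Or.inl h.symm)
    · intro α hα x hx u hu i hi
      have e : u = ∑ j, B.v.repr u j • B.v j := (B.v.sum_repr _).symm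
      rw [e, lie_sum, map_sum, Finsupp.finsetSum_apply]
      refine Finset.sum_eq_zero fun j _ => ?_
      rw [lie_smul, map_smul, Finsupp.smul_apply, smul_eq_mul]
      by_cases hj : B.v.repr ⁅x, B.v j⁆ i = 0
      · rw [hj, mul_zero]
      · by_cases hjt : j = t ∨ SBelow B b t j
        · exfalso
          apply hi
          right
          obtain ⟨f, hf⟩ := neg_sum b hα
          have hw : B.w i = (rootSystem H).root α + B.w j := by
            ext h
            exact B.coord_root hx hj h
          have hf0 : ∃ j ∈ b.support, f j ≠ 0 := by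
            by_contra! hcon
            apply (rootSystem H).ne_zero α
            rw [hf, Finset.sum_eq_zero, neg_zero]
            intro k hk
            rw [hcon k hk, Nat.cast_zero, zero_smul]
          rcases hjt with rfl | ⟨κ, hκ, hκ'⟩
          · exact ⟨f, hf0, by rw [hw, hf]; abel⟩
          · refine ⟨fun k => κ k + f k, ?_, ?_⟩
            · obtain ⟨k, hk, hk'⟩ := hκ
              exact ⟨k, hk, by simp only; omega⟩
            · rw [hw, hf, hκ']
              have e2 : ∑ k ∈ b.support, ((κ k + f k : ℕ) : K) • (rootSystem H).root k =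
                  ∑ k ∈ b.support, (κ k : K) • (rootSystem H).root k +
                  ∑ k ∈ b.support, (f k : K) • (rootSystem H).root k := by
                rw [← Finset.sum_add_distrib]
                refine Finset.sum_congr rfl fun k _ => ?_
                rw [Nat.cast_add, add_smul]
              rw [e2]
              abel
        · rw [hu j hjt, zero_mul]
  by_contra hc
  have h1 : B.v i ∈ N := by rw [hN]; trivial
  have h2 := h1 i hc
  rw [B.v.repr_self, Finsupp.single_eq_same] at h2
  exact one_ne_zero h2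

theorem sbelow_ne (B : WB (V := V) H I) (b : (rootSystem H).Base) {t i : I} (h : SBelow B b t i) :
    B.w i ≠ B.w t := by
  obtain ⟨κ, ⟨k, hk, hk'⟩, h1⟩ := h
  intro h2
  rw [h2] at h1
  have h3 : ∑ j ∈ b.support, (κ j : K) • (rootSystem H).root j = 0 := by
    have := h1
    rwa [eq_comm, sub_eq_self] at this
  have h4 := LinearMap.congr_fun h3 (rho2 b)
  rw [LinearMap.sum_apply, LinearMap.zero_apply] at h4
  have h5 : ∑ j ∈ b.support, ((κ j : K) • (rootSystem H).root j) (rho2 b) = ∑ j ∈ b.support, ((2 * κ j : ℕ) : K) := by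
    refine Finset.sum_congr rfl fun j hj => ?_
    rw [LinearMap.smul_apply, root_apply', root_rho, RootPairing.Base.height_one_of_mem_support hj, smul_eq_mul]
    push_cast
    ring
  rw [h5, ← Nat.cast_sum, Nat.cast_eq_zero, Finset.sum_eq_zero_iff] at h4
  have := h4 k hk
  omega

/-- The highest weight of an irreducible module. -/
theorem exists_top14 (B : WB (V := V) H I) [Nonempty I]
    (hirr : ∀ W : Submodule K V, (∀ x : L, ∀ u ∈ W, ⁅x, u⁆ ∈ W) → W = ⊥ ∨ W = ⊤) (b : (rootSystem H).Base) :
    ∃ t : I, (∀ i, Below b (B.w t) (B.w i)) ∧ (∀ i, B.w i = B.w t → i = t) ∧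
      ∀ j ∈ b.support, ∃ k : ℕ, B.w t (coroot j.1) = (k : K) := by
  obtain ⟨t, h0⟩ := exists_max B hirr b
  refine ⟨t, fun i => ?_, fun i hi => ?_, fun j hj => ?_⟩
  · rcases below_top B hirr b h0 i with rfl | ⟨κ, _, h1⟩
    · exact ⟨fun _ => 0, by simp⟩
    · exact ⟨κ, h1⟩
  · rcases below_top B hirr b h0 i with h1 | h1
    · exact h1
    · exact absurd hi (sbelow_ne B b h1)
  · obtain ⟨h, e, f, ht, he, hf⟩ := exists_isSl2Triple_of_weight_isNonZero (H.isNonZero_coe_root j)
    have hc := ht.h_eq_coroot (H.isNonZero_coe_root j) he hf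
    rw [hc] at ht
    have hprim : ht.HasPrimitiveVectorWith (B.v t) (B.w t (coroot j.1)) :=
      ⟨B.v.ne_zero t, B.lie_v t _, h0 j (RootPairing.Base.isPos_of_mem_support hj) e he⟩
    obtain ⟨n, hn⟩ := hprim.exists_nat
    exact ⟨n, hn⟩

end PF.L
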