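import Pool.Agent.Helper71.OW.Ideal
import Pool.Agent.Helper98.PF.Core

/-!
Project PF: a primitive self-adjoint Lie algebra has no proper ideals.
-/

open Matrix MH
open scoped ComplexOrder

namespace OW

variable {n : Type*} [Fintype n] [DecidableEq n] {h : Matrix n n ℂ} {E : ℝ → Matrix n n ℂ} {Λ : Finset ℝ}
variable {τ : Matrix n n ℂ →ₗ[ℂ] Matrix n n ℂ} {L : Submodule ℂ (Matrix n n ℂ)}

theorem trace_zero14 (D : Dat τ L h E Λ) {x : Matrix n n ℂ} (hx : x ∈ L) : x.trace = 0 := by
  have h1 := D.inv.tr x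
  rw [D.sk x hx, trace_neg] at h1
  have h2 : (2 : ℂ) * x.trace = 0 := by linear_combination -h1
  exact (mul_eq_zero.mp h2).resolve_left two_ne_zero

theorem scalar_zero14 (D : Dat τ L h E Λ) {x : Matrix n n ℂ} (hx : x ∈ L) {c : ℂ}
    (hc : x = c • (1 : Matrix n n ℂ)) : x = 0 := by
  have h1 := trace_zero14 D hx
  rw [hc, trace_smul, trace_one, smul_eq_mul] at h1
  rcases mul_eq_zero.mp h1 with h2 | h2
  · rw [hc, h2, zero_smul]
  · have h3 : Fintype.card n = 0 := by exact_mod_cast h2
    have h4 := Fintype.card_eq_zero_iff.mp h3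
    ext i j
    exact h4.elim i

/-- **A primitive self-adjoint Lie algebra has no proper ideals.** -/
theorem smp_of_prim (D : Dat τ L h E Λ) (P : Prim L) : Smp L := by
  intro K hK hid
  -- the self-adjoint ideal
  let A : Submodule ℂ (Matrix n n ℂ) :=
    { carrier := {x | x ∈ K ∧ xᴴ ∈ K}
      add_mem' := by
        rintro a b ⟨h1, h2⟩ ⟨h3, h4⟩
        exact ⟨K.add_mem h1 h3, by rw [conjTranspose_add]; exact K.add_mem h2 h4⟩
      zero_mem' := ⟨K.zero_mem, by rw [conjTranspose_zero]; exact K.zero_mem⟩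
      smul_mem' := by
        rintro c a ⟨h1, h2⟩
        exact ⟨K.smul_mem _ h1, by rw [conjTranspose_smul]; exact K.smul_mem _ h2⟩ }
  have hA : ∀ x, x ∈ A ↔ x ∈ K ∧ xᴴ ∈ K := fun x => Iff.rfl
  by_cases h0 : A = ⊥
  · left
    rw [eq_bot_iff]
    intro x hx
    rw [Submodule.mem_bot]
    -- `x` commutes with the adjoints of `K`
    have h1 : ∀ y ∈ K, x * yᴴ - yᴴ * x = 0 := by
      intro y hy
      have h2 : x * yᴴ - yᴴ * x ∈ A := by
        rw [hA]
        constructor
        · have := K.neg_mem (hid yᴴ (D.st y (hK hy)) x hx)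
          rwa [neg_sub] at this
        · have h3 : (x * yᴴ - yᴴ * x)ᴴ = y * xᴴ - xᴴ * y := by
            rw [conjTranspose_sub, conjTranspose_mul, conjTranspose_mul, conjTranspose_conjTranspose]
          rw [h3]
          have := K.neg_mem (hid xᴴ (D.st x (hK hx)) y hy)
          rwa [neg_sub] at this
      rwa [h0, Submodule.mem_bot] at h2
    have h2 : ∀ z ∈ L, x * z = z * x := by
      intro z hz
      have h3 : z * x - x * z ∈ K := hid z hz x hx
      have h4 : ((z * x - x * z) * (z * x - x * z)ᴴ).trace = 0 := by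
        have h5 := h1 _ h3
        have h6 : ((z * x - x * z) * (z * x - x * z)ᴴ).trace =
            (z * (x * (z * x - x * z)ᴴ - (z * x - x * z)ᴴ * x)).trace := by
          rw [sub_mul, mul_sub, trace_sub, trace_sub, mul_assoc, mul_assoc, trace_mul_comm x, mul_assoc]
        rw [h6, h5, mul_zero, trace_zero]
      have h7 : z * x - x * z = 0 := by
        have h8 := (Matrix.trace_mul_conjTranspose_self_eq_zero_iff (A := z * x - x * z)).1 h4
        exact h8
      exact (sub_eq_zero.1 h7).symm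
    obtain ⟨c, hc⟩ := D.irr x h2
    exact scalar_zero14 D (hK hx) hc
  · right
    have h1 : A = L := by
      refine ideal_eq D P (fun x hx => hK hx.1) ?_ ?_ h0
      · rintro a ⟨h2, h3⟩
        exact ⟨h3, by rwa [conjTranspose_conjTranspose]⟩
      · rintro x hx a ⟨h2, h3⟩
        refine ⟨hid x hx a h2, ?_⟩
        have h4 : (x * a - a * x)ᴴ = -(xᴴ * aᴴ - aᴴ * xᴴ) := by
          rw [conjTranspose_sub, conjTranspose_mul, conjTranspose_mul, neg_sub]
        rw [h4]
        exact K.neg_mem (hid xᴴ (D.st x hx) aᴴ h3)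
    refine le_antisymm hK ?_
    rw [← h1]
    exact fun x hx => hx.1

end OW
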