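import Pool.Agent.Helper14.PF.SpLin
import Pool.Agent.Helper3.PF.LTop
import Pool.Agent.Helper95.PF.C1W

/-!
Project PFO: type D configurations of weights; the symplectic case of the core theorem.
-/

open Module LieModule LieAlgebra LieAlgebra.IsKilling MTP.MF

attribute [local instance 100] LieRing.ofAssociativeRing

namespace PF

section E

variable {E : Type*} [NormedAddCommGroup E] [InnerProductSpace ℝ E] {Φ X : Finset E}

/-- The elements of a frame of type D. -/
theorem TypeD.facts (h : TypeD Φ X) : ∃ s : ℝ, 0 < s ∧ (∀ y ∈ X, inner ℝ y y = s) ∧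
    (∀ y ∈ X, ∀ z ∈ X, y ≠ z → y ≠ -z → inner ℝ y z = (0 : ℝ) ∧ y - z ∈ Φ ∧ y + z ∈ Φ) ∧
    ∀ y ∈ X, ∃ z ∈ X, y ≠ z ∧ y ≠ -z := by
  obtain ⟨N, x, hx, c, hc, hN, hX, hΦ⟩ := h
  have hxx : ∀ i j, inner ℝ (x i) (x j) = if i = j then (1 : ℝ) else 0 := orthonormal_iff_ite.1 hx
  refine ⟨c * c, mul_pos hc hc, ?_, ?_, ?_⟩
  · intro y hy
    obtain ⟨i, rfl | rfl⟩ := (hX y).1 hy
    · rw [inner_smul_left, inner_smul_right, hxx, if_pos rfl]
      simp
    · rw [inner_neg_neg, inner_smul_left, inner_smul_right, hxx, if_pos rfl]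
      simp
  · intro y hy z hz hyz hyz'
    obtain ⟨i, hi⟩ := (hX y).1 hy
    obtain ⟨j, hj⟩ := (hX z).1 hz
    have hij : i ≠ j := by
      rintro rfl
      rcases hi with rfl | rfl <;> rcases hj with rfl | rfl
      · exact hyz rfl
      · exact hyz' (neg_neg _).symm
      · exact hyz' rfl
      · exact hyz rfl
    obtain ⟨h1, h2, h3⟩ := hΦ i j hij
    obtain ⟨h1', h2', h3'⟩ := hΦ j i hij.symm
    have h0 : inner ℝ (c • x i) (c • x j) = (0 : ℝ) := by
      rw [inner_smul_left, inner_smul_right, hxx, if_neg hij]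
      simp
    have e1 : c • (x i + x j) = c • x i + c • x j := smul_add _ _ _
    have e2 : c • (x i - x j) = c • x i - c • x j := smul_sub _ _ _
    have e3 : c • (x j - x i) = c • x j - c • x i := smul_sub _ _ _
    rw [e1] at h1 h3
    rw [e2] at h2
    rw [e3] at h2'
    rcases hi with rfl | rfl <;> rcases hj with rfl | rfl
    · exact ⟨h0, h2, h1⟩
    · refine ⟨by rw [inner_neg_right, h0, neg_zero], ?_, ?_⟩
      · rwa [sub_neg_eq_add]
      · rwa [← sub_eq_add_neg]
    · refine ⟨by rw [inner_neg_left, h0, neg_zero], ?_, ?_⟩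
      · rwa [← neg_add']
      · rwa [neg_add_eq_sub]
    · refine ⟨by rw [inner_neg_neg, h0], ?_, ?_⟩
      · rwa [sub_neg_eq_add, neg_add_eq_sub]
      · rwa [← neg_add]
  · intro y hy
    obtain ⟨i, hi⟩ := (hX y).1 hy
    obtain ⟨j, hij⟩ : ∃ j : Fin N, i ≠ j := by
      by_cases h0 : i.1 = 0
      · exact ⟨⟨1, by omega⟩, fun h => by rw [h] at h0; simp at h0⟩
      · exact ⟨⟨0, by omega⟩, fun h => h0 (by rw [h])⟩
    have hne : inner ℝ y (c • x j) = (0 : ℝ) := by
      rcases hi with rfl | rfl
      · rw [inner_smul_left, inner_smul_right, hxx, if_neg hij]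
        simp
      · rw [inner_neg_left, inner_smul_left, inner_smul_right, hxx, if_neg hij]
        simp
    have hself : inner ℝ (c • x j) (c • x j) = c * c := by
      rw [inner_smul_left, inner_smul_right, hxx, if_pos rfl]
      simp
    have hpos : 0 < c * c := mul_pos hc hc
    refine ⟨c • x j, (hX _).2 ⟨j, Or.inl rfl⟩, ?_, ?_⟩
    · rintro rfl
      rw [hself] at hne
      exact hpos.ne' hne
    · rintro rfl
      rw [inner_neg_left, hself] at hne
      linarith

end E

namespace C

variable {K : Type*} [Field K] [CharZero K] [IsAlgClosed K]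
  {L : Type*} [LieRing L] [LieAlgebra K L] [FiniteDimensional K L] [IsKilling K L]
  {H : LieSubalgebra K L} [H.IsCartanSubalgebra]
  {V : Type*} [AddCommGroup V] [Module K V] [FiniteDimensional K V]
  [LieRingModule L V] [LieModule K L V] {I : Type*} [Fintype I]

/-- Type D in terms of the weights. -/
theorem typeD_facts (B : WB (V := V) H I) (hD : TypeD (PhiS H) (XS B)) :
    (∀ i k, B.w i ≠ B.w k → B.w i ≠ -B.w k → ∃ β : H.root, rt β = B.w i - B.w k ∧ B.w i (coroot β.1) = 1) ∧
    (∀ i k, B.w i ≠ B.w k → B.w i ≠ -B.w k → ∃ β : H.root, rt β = B.w i + B.w k) ∧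
    (∀ i j k l, B.w i + B.w j = B.w k + B.w l → B.w i + B.w j ≠ 0 →
      (B.w i = B.w k ∧ B.w j = B.w l) ∨ (B.w i = B.w l ∧ B.w j = B.w k)) ∧
    (∀ i, ∃ j, B.w i ≠ B.w j ∧ B.w i ≠ -B.w j) := by
  obtain ⟨s, hs, h1, h2, h3⟩ := hD.facts
  have hX : ∀ i, toE (B.w i) ∈ XS B := fun i => mem_XS.2 ⟨i, rfl⟩
  have hint : ∀ i, Intl (B.w i) := fun i => intl_w B i
  have hne : ∀ i k, B.w i ≠ B.w k → toE (B.w i) ≠ toE (B.w k) := fun i k h h' => h (toE_inj (hint i) (hint k) h')
  have hne' : ∀ i k, B.w i ≠ -B.w k → toE (B.w i) ≠ -toE (B.w k) := by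
    intro i k h h'
    apply h
    apply toE_inj (hint i) (hint k).neg
    rw [h', toE_neg (hint k)]
  refine ⟨fun i k h h' => ?_, fun i k h h' => ?_, fun i j k l hij h0 => ?_, fun i => ?_⟩
  · obtain ⟨g1, g2, _⟩ := h2 _ (hX i) _ (hX k) (hne i k h) (hne' i k h')
    obtain ⟨β, hβ⟩ := mem_PhiS.1 g2
    refine ⟨β, ?_, ?_⟩
    · apply toE_inj (intl_rt β) ((hint i).sub (hint k))
      rw [hβ, toE_sub (hint i) (hint k)]
    · rw [iv_spec (hint i) β]
      have h5 := co_toE (hint i) β
      rw [hβ] at h5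
      have h6 : co (toE (B.w i) - toE (B.w k)) (toE (B.w i)) = 1 := by
        unfold co
        have g3 : inner ℝ (toE (B.w k)) (toE (B.w i)) = (0 : ℝ) := by
          rw [real_inner_comm]
          exact g1
        rw [inner_sub_right, inner_sub_left, inner_sub_right, inner_sub_right, g1, g3, h1 _ (hX i), h1 _ (hX k),
          div_eq_one_iff_eq (by intro h9; linarith)]
        ring
      rw [h6] at h5
      have h7 : iv (B.w i) β = 1 := by exact_mod_cast h5.symm
      rw [h7, Int.cast_one]
  · obtain ⟨_, _, g2⟩ := h2 _ (hX i) _ (hX k) (hne i k h) (hne' i k h')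
    obtain ⟨β, hβ⟩ := mem_PhiS.1 g2
    refine ⟨β, ?_⟩
    apply toE_inj (intl_rt β) ((hint i).add (hint k))
    rw [hβ, toE_add (hint i) (hint k)]
  · -- inner products
    have hin : ∀ a b, inner ℝ (toE (B.w a)) (toE (B.w b)) = (s : ℝ) ∨
        inner ℝ (toE (B.w a)) (toE (B.w b)) = (0 : ℝ) ∨ inner ℝ (toE (B.w a)) (toE (B.w b)) = (-s : ℝ) := by
      intro a b
      by_cases h4 : toE (B.w a) = toE (B.w b)
      · left
        rw [h4, h1 _ (hX b)]
      · by_cases h5 : toE (B.w a) = -toE (B.w b)
        · right; right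
          rw [h5, inner_neg_left, h1 _ (hX b)]
        · right; left
          exact (h2 _ (hX a) _ (hX b) h4 h5).1
    have heq : ∀ a b, inner ℝ (toE (B.w a)) (toE (B.w b)) = (s : ℝ) → B.w a = B.w b := by
      intro a b h4
      by_contra h5
      by_cases h6 : toE (B.w a) = -toE (B.w b)
      · rw [h6, inner_neg_left, h1 _ (hX b)] at h4
        linarith
      · rw [(h2 _ (hX a) _ (hX b) (hne a b h5) h6).1] at h4
        exact hs.ne h4
    have hsumE : toE (B.w i) + toE (B.w j) = toE (B.w k) + toE (B.w l) := by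
      rw [← toE_add (hint i) (hint j), ← toE_add (hint k) (hint l), hij]
    have hip : inner ℝ (toE (B.w i)) (toE (B.w i)) + inner ℝ (toE (B.w i)) (toE (B.w j)) =
        inner ℝ (toE (B.w i)) (toE (B.w k)) + (inner ℝ (toE (B.w i)) (toE (B.w l)) : ℝ) := by
      rw [← inner_add_right, ← inner_add_right, hsumE]
    rw [h1 _ (hX i)] at hip
    have hij' : inner ℝ (toE (B.w i)) (toE (B.w j)) ≠ (-s : ℝ) := by
      intro h4
      apply h0
      have h5 : toE (B.w i) = -toE (B.w j) := by
        by_contra h6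
        by_cases h7 : toE (B.w i) = toE (B.w j)
        · rw [h7, h1 _ (hX j)] at h4
          linarith
        · rw [(h2 _ (hX i) _ (hX j) h7 h6).1] at h4
          linarith
      have h8 : B.w i = -B.w j := by
        apply toE_inj (hint i) (hint j).neg
        rw [h5, toE_neg (hint j)]
      rw [h8, neg_add_cancel]
    have hk : inner ℝ (toE (B.w i)) (toE (B.w k)) = (s : ℝ) ∨ inner ℝ (toE (B.w i)) (toE (B.w l)) = (s : ℝ) := by
      rcases hin i k with h4 | h4 | h4
      · exact Or.inl h4
      · right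
        rcases hin i l with h5 | h5 | h5
        · exact h5
        · exfalso
          rcases hin i j with h6 | h6 | h6
          · rw [h4, h5, h6] at hip; linarith
          · rw [h4, h5, h6] at hip; linarith
          · exact hij' h6
        · exfalso
          rcases hin i j with h6 | h6 | h6
          · rw [h4, h5, h6] at hip; linarith
          · rw [h4, h5, h6] at hip; linarith
          · exact hij' h6
      · right
        rcases hin i l with h5 | h5 | h5
        · exact h5
        · exfalso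
          rcases hin i j with h6 | h6 | h6
          · rw [h4, h5, h6] at hip; linarith
          · rw [h4, h5, h6] at hip; linarith
          · exact hij' h6
        · exfalso
          rcases hin i j with h6 | h6 | h6
          · rw [h4, h5, h6] at hip; linarith
          · rw [h4, h5, h6] at hip; linarith
          · exact hij' h6
    rcases hk with h4 | h4
    · left
      have h5 := heq _ _ h4
      refine ⟨h5, ?_⟩
      rw [h5] at hij
      exact add_left_cancel hij
    · right
      have h5 := heq _ _ h4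
      refine ⟨h5, ?_⟩
      rw [h5, add_comm (B.w k)] at hij
      exact add_left_cancel hij
  · obtain ⟨z, hz, h4, h5⟩ := h3 _ (hX i)
    obtain ⟨j, rfl⟩ := mem_XS.1 hz
    refine ⟨j, fun h => h4 (by rw [h]), fun h => h5 ?_⟩
    rw [h, toE_neg (hint j)]

end C

end PF
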