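import Mathlib

/-!
Project PFO, linear algebra: a Lie algebra of skew endomorphisms of a symplectic space that contains non-zero
endomorphisms of the weights `w i + w j` is the symplectic Lie algebra.
-/

open Module

namespace PF.Sp

variable {K : Type*} [Field K] {V : Type*} [AddCommGroup V] [Module K V]

/-- The endomorphism `u ↦ ω(a, u) b + ω(b, u) a`. -/
noncomputable def D (ω : LinearMap.BilinForm K V) (a b : V) : Module.End K V :=
  (ω a).smulRight b + (ω b).smulRight a

variable {ω : LinearMap.BilinForm K V}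

theorem D_apply (a b u : V) : D ω a b u = ω a u • b + ω b u • a := rfl

theorem D_comm (a b : V) : D ω a b = D ω b a := by
  ext u
  rw [D_apply, D_apply, add_comm]

theorem D_add_right (a b c : V) : D ω a (b + c) = D ω a b + D ω a c := by
  ext u
  simp only [LinearMap.add_apply, D_apply, map_add, smul_add, add_smul]
  abel

theorem D_smul_right (a b : V) (r : K) : D ω a (r • b) = r • D ω a b := by
  ext u
  simp only [LinearMap.smul_apply, D_apply, map_smul, smul_add, smul_eq_mul, mul_smul]
  rw [smul_comm]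

theorem D_smul_left (a b : V) (r : K) : D ω (r • a) b = r • D ω a b := by
  rw [D_comm, D_smul_right, D_comm]

theorem D_sum_right {ι : Type*} (s : Finset ι) (a : V) (f : ι → V) : D ω a (∑ i ∈ s, f i) = ∑ i ∈ s, D ω a (f i) := by
  classical
  induction s using Finset.induction_on with
  | empty =>
    ext u
    simp [D_apply]
  | insert i s hi ih => rw [Finset.sum_insert hi, Finset.sum_insert hi, D_add_right, ih]

/-- The bracket with a skew endomorphism. -/
theorem bracket_D {x : Module.End K V} (hx : ∀ u v, ω (x u) v = -ω u (x v)) (a b : V) :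
    x * D ω a b - D ω a b * x = D ω (x a) b + D ω a (x b) := by
  ext u
  simp only [LinearMap.sub_apply, Module.End.mul_apply, LinearMap.add_apply, D_apply, map_add, map_smul, hx, neg_smul]
  abel

theorem skew_D (halt : ω.IsAlt) (a b u v : V) : ω (D ω a b u) v = -ω u (D ω a b v) := by
  have h1 : ω u b = -ω b u := (halt.neg_eq b u).symm
  have h2 : ω u a = -ω a u := (halt.neg_eq a u).symm
  rw [D_apply, D_apply, map_add, map_add, map_smul, map_smul, map_smul, map_smul, LinearMap.add_apply,
    LinearMap.smul_apply, LinearMap.smul_apply, h1, h2]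
  simp only [smul_eq_mul]
  ring

variable [CharZero K] {I : Type*} [Fintype I] {M : Type*} [AddCommGroup M]

theorem sp_of_pairs (v : Basis I K V) (w : I → M) (hnd : ω.Nondegenerate) (halt : ω.IsAlt)
    (L : Submodule K (Module.End K V)) (hbr : ∀ x ∈ L, ∀ y ∈ L, x * y - y * x ∈ L)
    (hsk : ∀ x ∈ L, ∀ u v, ω (x u) v = -ω u (x v)) (hinj : Function.Injective w)
    (hσ : ∀ i, ∃ j, w j = -w i) (h1 : ∀ i j, ω (v i) (v j) ≠ 0 → w j = -w i)
    (h2 : ∀ i j, w i ≠ w j → w i ≠ -w j → ∃ e ∈ L, e ≠ 0 ∧
      ∀ k l, v.repr (e (v k)) l ≠ 0 → w l = w k + w i + w j)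
    (h3 : ∀ i j k l, w i + w j = w k + w l → w i + w j ≠ 0 → (w i = w k ∧ w j = w l) ∨ (w i = w l ∧ w j = w k))
    (h4 : ∀ i, ∃ j, w i ≠ w j ∧ w i ≠ -w j) {y : Module.End K V} (hy : ∀ u v, ω (y u) v = -ω u (y v)) : y ∈ L := by
  classical
  choose σ hσ using hσ
  have hσσ : ∀ i, σ (σ i) = i := fun i => hinj (by rw [hσ, hσ, neg_neg])
  have hself : ∀ u, ω u u = 0 := fun u => halt u
  have hne : ∀ i, ω (v i) (v (σ i)) ≠ 0 := by
    intro i hi
    apply v.ne_zero i
    apply hnd.1
    intro u
    rw [← v.sum_repr u, map_sum]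
    refine Finset.sum_eq_zero fun j _ => ?_
    rw [map_smul]
    by_cases hj : ω (v i) (v j) = 0
    · rw [hj, smul_zero]
    · have h5 := h1 i j hj
      rw [← hσ] at h5
      rw [hinj h5, hi, smul_zero]
  have hzero : ∀ i j, j ≠ σ i → ω (v i) (v j) = 0 := by
    intro i j hj
    by_contra h5
    apply hj
    apply hinj
    rw [hσ]
    exact h1 i j h5
  -- (a)
  have ha : ∀ i j, w i ≠ w j → w i ≠ -w j → D ω (v i) (v j) ∈ L := by
    intro i j hij hij'
    obtain ⟨e, heL, he0, he⟩ := h2 i j hij hij'
    have hsum : w i + w j ≠ 0 := fun h => hij' (eq_neg_of_add_eq_zero_left h)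
    have key : ∀ k l, v.repr (e (v k)) l ≠ 0 → (l = i ∧ k = σ j) ∨ (l = j ∧ k = σ i) := by
      intro k l hkl
      have h5 := he k l hkl
      have h6 : w i + w j = w l + w (σ k) := by
        rw [h5, hσ]
        abel
      rcases h3 i j l (σ k) h6 hsum with ⟨h7, h8⟩ | ⟨h7, h8⟩
      · left
        exact ⟨(hinj h7).symm, by rw [hinj h8, hσσ]⟩
      · right
        exact ⟨(hinj h8).symm, by rw [hinj h7, hσσ]⟩
    have hijne : i ≠ j := fun h => hij (by rw [h])
    have hsne : σ i ≠ σ j := fun h => hijne (by rw [← hσσ i, h, hσσ])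
    have e1 : e (v (σ j)) = v.repr (e (v (σ j))) i • v i := by
      conv_lhs => rw [← v.sum_repr (e (v (σ j)))]
      refine Finset.sum_eq_single i (fun l _ hl => ?_) (fun h => absurd (Finset.mem_univ _) h)
      by_cases h5 : v.repr (e (v (σ j))) l = 0
      · rw [h5, zero_smul]
      · exfalso
        rcases key _ _ h5 with ⟨h6, _⟩ | ⟨_, h6⟩
        · exact hl h6
        · exact hsne h6.symm
    have e2 : e (v (σ i)) = v.repr (e (v (σ i))) j • v j := by
      conv_lhs => rw [← v.sum_repr (e (v (σ i)))]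
      refine Finset.sum_eq_single j (fun l _ hl => ?_) (fun h => absurd (Finset.mem_univ _) h)
      by_cases h5 : v.repr (e (v (σ i))) l = 0
      · rw [h5, zero_smul]
      · exfalso
        rcases key _ _ h5 with ⟨_, h6⟩ | ⟨h6, _⟩
        · exact hsne h6
        · exact hl h6
    have e3 : ∀ k, k ≠ σ i → k ≠ σ j → e (v k) = 0 := by
      intro k hk hk'
      rw [← v.sum_repr (e (v k))]
      refine Finset.sum_eq_zero fun l _ => ?_
      by_cases h5 : v.repr (e (v k)) l = 0
      · rw [h5, zero_smul]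
      · exfalso
        rcases key _ _ h5 with ⟨_, h6⟩ | ⟨_, h6⟩
        · exact hk' h6
        · exact hk h6
    set κ1 := v.repr (e (v (σ j))) i with hκ1
    set κ2 := v.repr (e (v (σ i))) j with hκ2
    have e4 : κ1 * ω (v i) (v (σ i)) = κ2 * ω (v j) (v (σ j)) := by
      have h5 := hsk e heL (v (σ j)) (v (σ i))
      rw [e1, e2, map_smul, map_smul, LinearMap.smul_apply, smul_eq_mul, smul_eq_mul] at h5
      have h6 : ω (v (σ j)) (v j) = -ω (v j) (v (σ j)) := (halt.neg_eq (v j) (v (σ j))).symm
      rw [h6] at h5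
      linear_combination h5
    have z1 : ω (v j) (v (σ i)) = 0 := hzero _ _ hsne
    have z2 : ω (v i) (v (σ j)) = 0 := hzero _ _ hsne.symm
    have e5 : e = (κ2 / ω (v i) (v (σ i))) • D ω (v i) (v j) := by
      apply v.ext
      intro k
      rw [LinearMap.smul_apply, D_apply]
      by_cases hk : k = σ i
      · rw [hk, e2, z1, zero_smul, add_zero, smul_smul, div_mul_cancel₀ _ (hne i)]
      · by_cases hk' : k = σ j
        · rw [hk', e1, z2, zero_smul, zero_add, smul_smul]
          congr 1
          rw [div_mul_eq_mul_div, eq_div_iff (hne i)]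
          exact e4
        · rw [e3 k hk hk', hzero i k hk, hzero j k hk', zero_smul, zero_smul, add_zero, smul_zero]
    have hκ : κ2 / ω (v i) (v (σ i)) ≠ 0 := by
      intro h
      apply he0
      rw [e5, h, zero_smul]
    have e6 : D ω (v i) (v j) = (κ2 / ω (v i) (v (σ i)))⁻¹ • e := by
      rw [e5, smul_smul, inv_mul_cancel₀ hκ, one_smul]
    rw [e6]
    exact L.smul_mem _ heL
  -- (b)
  have hb : ∀ i, D ω (v i) (v i) ∈ L := by
    intro i
    obtain ⟨j, hij, hij'⟩ := h4 i
    have hij2 : w i ≠ w (σ j) := by rw [hσ]; exact hij'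
    have hij3 : w i ≠ -w (σ j) := by rw [hσ, neg_neg]; exact hij
    have h5 := hbr _ (ha i j hij hij') _ (ha i (σ j) hij2 hij3)
    rw [bracket_D (fun u v => skew_D halt _ _ u v)] at h5
    have z1 : ω (v j) (v i) = 0 := by
      apply hzero
      intro h
      apply hij'
      rw [h, hσ]
    have z2 : ω (v i) (v (σ j)) = 0 := by
      apply hzero
      intro h
      apply hij
      have := congrArg σ h
      rw [hσσ, hσσ] at this
      rw [this]
    rw [D_apply, D_apply, hself, z1, z2] at h5
    simp only [zero_smul, add_zero, zero_add] at h5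
    have e1 : D ω (0 : V) (v (σ j)) = 0 := by
      ext u
      rw [D_apply, map_zero, LinearMap.zero_apply, zero_smul, smul_zero, add_zero, LinearMap.zero_apply]
    rw [e1, zero_add, D_smul_right] at h5
    have h6 := L.smul_mem (ω (v j) (v (σ j)))⁻¹ h5
    rwa [smul_smul, inv_mul_cancel₀ (hne j), one_smul] at h6
  -- (c)
  have hc : ∀ i, D ω (v i) (v (σ i)) ∈ L := by
    intro i
    have h5 := hbr _ (hb i) _ (hb (σ i))
    rw [bracket_D (fun u v => skew_D halt _ _ u v)] at h5
    have e1 : D ω (v i) (v i) (v (σ i)) = (2 * ω (v i) (v (σ i))) • v i := by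
      rw [D_apply, ← add_smul, two_mul]
    rw [e1, D_smul_right, D_smul_left, D_comm (v (σ i)) (v i), ← add_smul] at h5
    have h6 := L.smul_mem (2 * ω (v i) (v (σ i)) + 2 * ω (v i) (v (σ i)))⁻¹ h5
    have h7 : 2 * ω (v i) (v (σ i)) + 2 * ω (v i) (v (σ i)) ≠ 0 := by
      intro h
      have : (4 : K) * ω (v i) (v (σ i)) = 0 := by linear_combination h
      rcases mul_eq_zero.1 this with h8 | h8
      · norm_num at h8
      · exact hne i h8
    rwa [smul_smul, inv_mul_cancel₀ h7, one_smul] at h6
  have hd : ∀ i j, D ω (v i) (v j) ∈ L := by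
    intro i j
    by_cases hij : w i = w j
    · rw [hinj hij]
      exact hb j
    by_cases hij' : w i = -w j
    · have : i = σ j := hinj (by rw [hσ, hij'])
      rw [this, D_comm]
      exact hc j
    exact ha i j hij hij'
  -- (e)
  have he : ∀ i (u : V), D ω (v i) u ∈ L := by
    intro i u
    rw [← v.sum_repr u, D_sum_right]
    refine L.sum_mem fun j _ => ?_
    rw [D_smul_right]
    exact L.smul_mem _ (hd i j)
  have hcoef : ∀ (u : V) (i : I), ω (v (σ i)) u = v.repr u i * ω (v (σ i)) (v i) := by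
    intro u i
    conv_lhs => rw [← v.sum_repr u, map_sum]
    rw [Finset.sum_eq_single i]
    · rw [map_smul, smul_eq_mul]
    · intro j _ hj
      rw [map_smul, hzero (σ i) j (by rw [hσσ]; exact hj), smul_zero]
    · intro h
      exact absurd (Finset.mem_univ _) h
  have hne' : ∀ i, ω (v (σ i)) (v i) ≠ 0 := by
    intro i
    have := hne (σ i)
    rwa [hσσ] at this
  have hfin : (2 : K) • y = ∑ i, (ω (v (σ i)) (v i))⁻¹ • D ω (v (σ i)) (y (v i)) := by
    ext u
    rw [LinearMap.smul_apply, LinearMap.sum_apply]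
    have e1 : ∀ i, ((ω (v (σ i)) (v i))⁻¹ • D ω (v (σ i)) (y (v i))) u =
        v.repr u i • y (v i) + (v.repr (y u) (σ i)) • v (σ i) := by
      intro i
      have h5 := hcoef (y u) (σ i)
      rw [hσσ] at h5
      have h6 : ω (v i) (v (σ i)) = -ω (v (σ i)) (v i) := (halt.neg_eq (v (σ i)) (v i)).symm
      rw [h6] at h5
      have h8 : ω (y (v i)) u = v.repr (y u) (σ i) * ω (v (σ i)) (v i) := by
        rw [hy, h5]
        ring
      rw [LinearMap.smul_apply, D_apply, hcoef u i, h8, smul_add, smul_smul, smul_smul]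
      have h9 : ∀ r : K, (ω (v (σ i)) (v i))⁻¹ * (r * ω (v (σ i)) (v i)) = r := by
        intro r
        rw [mul_comm, mul_assoc, mul_inv_cancel₀ (hne' i), mul_one]
      rw [h9, h9]
    rw [Finset.sum_congr rfl fun i _ => e1 i, Finset.sum_add_distrib]
    have e2 : ∑ i, v.repr u i • y (v i) = y u := by
      conv_rhs => rw [← v.sum_repr u, map_sum]
      refine Finset.sum_congr rfl fun i _ => ?_
      rw [map_smul]
    have e3 : ∑ i, (v.repr (y u) (σ i)) • v (σ i) = y u := by
      have h5 : Function.Bijective σ := Function.Involutive.bijective hσσ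
      have h6 := Function.Bijective.sum_comp h5 (fun i => v.repr (y u) i • v i)
      rw [h6, v.sum_repr]
    rw [e2, e3, two_smul]
  have h5 : (2 : K) • y ∈ L := by
    rw [hfin]
    exact L.sum_mem fun i _ => L.smul_mem _ (he _ _)
  have h6 := L.smul_mem (2 : K)⁻¹ h5
  rwa [smul_smul, inv_mul_cancel₀ two_ne_zero, one_smul] at h6

end PF.Sp
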